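import Pool.Agent.Helper35.ARC2.Defs

set_option autoImplicit false

/-!
# Complexes given by matrices

For an `R`-module `X`, a matrix with entries in `R` acts on tuples of elements of `X`.
-/

namespace Pool.Agent.Helper35.ARC2

variable {R : Type} [CommRing R]

/-- The action of a matrix on tuples of elements of a module. -/
def act (X : Type) [AddCommGroup X] [Module R X] {p q : ℕ} (D : Matrix (Fin p) (Fin q) R) :
    (Fin q → X) →ₗ[R] (Fin p → X) :=
  LinearMap.pi fun a => ∑ b, D a b • (LinearMap.proj b : (Fin q → X) →ₗ[R] X)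

section basic

variable {X Y : Type} [AddCommGroup X] [Module R X] [AddCommGroup Y] [Module R Y] {p q r : ℕ}

lemma act_apply (D : Matrix (Fin p) (Fin q) R) (v : Fin q → X) (a : Fin p) :
    act X D v a = ∑ b, D a b • v b := by
  simp [act]

lemma act_act (D' : Matrix (Fin r) (Fin p) R) (D : Matrix (Fin p) (Fin q) R) (v : Fin q → X) :
    act X D' (act X D v) = act X (D' * D) v := by
  funext a
  simp only [act_apply, Matrix.mul_apply, Finset.smul_sum, Finset.sum_smul, smul_smul]
  exact Finset.sum_comm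

lemma act_zero (v : Fin q → X) : act X (0 : Matrix (Fin p) (Fin q) R) v = 0 := by
  funext a
  simp [act_apply]

lemma act_act_zero {D' : Matrix (Fin r) (Fin p) R} {D : Matrix (Fin p) (Fin q) R}
    (h : D' * D = 0) (v : Fin q → X) : act X D' (act X D v) = 0 := by
  rw [act_act, h, act_zero]

lemma act_map (f : X →ₗ[R] Y) (D : Matrix (Fin p) (Fin q) R) (v : Fin q → X) :
    act Y D (fun b => f (v b)) = fun a => f (act X D v a) := by
  funext a
  simp [act_apply, map_sum]

lemma act_comp {m : ℕ} (D : Matrix (Fin p) (Fin q) R) (v : Fin q → (Fin m → X)) (a : Fin m) :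
    act X D (fun b => v b a) = fun c => act (Fin m → X) D v c a := by
  funext c
  simp [act_apply]

lemma act_mulVec (D : Matrix (Fin p) (Fin q) R) (v : Fin q → R) :
    act R D v = D.mulVec v := by
  funext a
  simp [act_apply, Matrix.mulVec, dotProduct]

lemma act_algebraMap {S : Type} [CommRing S] [Algebra R S] {N : Type} [AddCommGroup N]
    [Module R N] [Module S N] [IsScalarTower R S N] (D : Matrix (Fin p) (Fin q) R)
    (v : Fin q → N) : act N (D.map (algebraMap R S)) v = act N D v := by
  funext a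
  simp [act_apply]

end basic

/-- Exactness of `X ^ r → X ^ q → X ^ p`. -/
def Ex (X : Type) [AddCommGroup X] [Module R X] {p q r : ℕ} (A : Matrix (Fin p) (Fin q) R)
    (B : Matrix (Fin q) (Fin r) R) : Prop :=
  ∀ v : Fin q → X, act X A v = 0 → ∃ w, v = act X B w

section ses

variable {X' X X'' : Type} [AddCommGroup X'] [Module R X'] [AddCommGroup X] [Module R X]
    [AddCommGroup X''] [Module R X''] {f : X' →ₗ[R] X} {g : X →ₗ[R] X''} (h : SES f g)
    {p q r s : ℕ}

lemma Ex.of_equiv (e : X ≃ₗ[R] X') {A : Matrix (Fin p) (Fin q) R} {B : Matrix (Fin q) (Fin r) R}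
    (hX : Ex X A B) : Ex X' A B := by
  intro v hv
  have h1 := act_map e.symm.toLinearMap A v
  rw [hv] at h1
  obtain ⟨w, hw⟩ := hX (fun b => e.symm (v b)) (h1.trans (by funext a; simp))
  refine ⟨fun b => e (w b), ?_⟩
  have h2 := act_map e.toLinearMap B w
  refine Eq.trans ?_ h2.symm
  rw [← hw]
  funext a
  simp

lemma Ex.of_subsingleton [Subsingleton X] {A : Matrix (Fin p) (Fin q) R}
    {B : Matrix (Fin q) (Fin r) R} : Ex X A B := fun _ _ => ⟨0, Subsingleton.elim _ _⟩

include h

lemma SES.lift {t : ℕ} (w : Fin t → X'') : ∃ v : Fin t → X, (fun b => g (v b)) = w := by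
  choose v hv using fun b => h.surj (w b)
  exact ⟨v, funext hv⟩

lemma SES.pull {t : ℕ} (v : Fin t → X) (hv : (fun b => g (v b)) = 0) :
    ∃ w : Fin t → X', (fun b => f (w b)) = v := by
  choose w hw using fun b => (h.exact (v b)).mp (congrFun hv b)
  exact ⟨w, funext hw⟩

lemma SES.inj' {t : ℕ} {v w : Fin t → X'} (hv : (fun b => f (v b)) = fun b => f (w b)) :
    v = w := funext fun b => h.inj (congrFun hv b)

lemma SES.gf (x : X') : g (f x) = 0 := (h.exact _).mpr ⟨x, rfl⟩

lemma SES.ex_mid {A : Matrix (Fin p) (Fin q) R} {B : Matrix (Fin q) (Fin r) R} (hAB : A * B = 0)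
    (h1 : Ex X' A B) (h2 : Ex X'' A B) : Ex X A B := by
  intro v hv
  obtain ⟨w'', hw''⟩ := h2 (fun b => g (v b)) (by
    rw [act_map g A v, hv]
    funext a
    simp)
  obtain ⟨w, hw⟩ := h.lift w''
  obtain ⟨v', hv'⟩ := h.pull (v - act X B w) (by
    funext b
    have h3 := congrFun hw'' b
    have h4 := congrFun (act_map g B w) b
    simp only [hw] at h4
    simp only [Pi.sub_apply, map_sub, Pi.zero_apply]
    rw [← h4, ← h3, sub_self])
  have h5 : act X' A v' = 0 := by
    apply h.inj'
    rw [← act_map f A v', hv', map_sub, hv, act_act_zero hAB, sub_zero]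
    funext a
    simp
  obtain ⟨w', hw'⟩ := h1 v' h5
  refine ⟨w + fun b => f (w' b), ?_⟩
  rw [map_add, act_map f B w', ← hw', hv']
  abel

lemma SES.ex_left {A : Matrix (Fin p) (Fin q) R} {B : Matrix (Fin q) (Fin r) R}
    {C : Matrix (Fin r) (Fin s) R} (hBC : B * C = 0)
    (h1 : Ex X A B) (h2 : Ex X'' B C) : Ex X' A B := by
  intro v' hv'
  obtain ⟨w, hw⟩ := h1 (fun b => f (v' b)) (by
    rw [act_map f A v', hv']
    funext a
    simp)
  obtain ⟨u'', hu''⟩ := h2 (fun b => g (w b)) (by
    rw [act_map g B w, ← hw]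
    funext a
    simp [h.gf])
  obtain ⟨u, hu⟩ := h.lift u''
  obtain ⟨w', hw'⟩ := h.pull (w - act X C u) (by
    funext b
    have h3 := congrFun hu'' b
    have h4 := congrFun (act_map g C u) b
    simp only [hu] at h4
    simp only [Pi.sub_apply, map_sub, Pi.zero_apply]
    rw [← h4, ← h3, sub_self])
  refine ⟨w', h.inj' ?_⟩
  rw [← act_map f B w', hw', map_sub, act_act_zero hBC, sub_zero, ← hw]

lemma SES.ex_right {Z : Matrix (Fin s) (Fin p) R} {A : Matrix (Fin p) (Fin q) R}
    {B : Matrix (Fin q) (Fin r) R} (hZA : Z * A = 0)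
    (h1 : Ex X' Z A) (h2 : Ex X A B) : Ex X'' A B := by
  intro v'' hv''
  obtain ⟨v, rfl⟩ := h.lift v''
  obtain ⟨p', hp'⟩ := h.pull (act X A v) (by rw [← act_map g A v, hv''])
  have h3 : act X' Z p' = 0 := by
    apply h.inj'
    rw [← act_map f Z p', hp', act_act_zero hZA]
    funext a
    simp
  obtain ⟨w', hw'⟩ := h1 p' h3
  obtain ⟨w, hw⟩ := h2 (v - fun b => f (w' b)) (by
    rw [map_sub, act_map f A w', ← hw', hp', sub_self])
  refine ⟨fun b => g (w b), ?_⟩
  rw [act_map g B w, ← hw]
  funext b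
  simp [h.gf]

end ses

theorem Filt.ex {P : Type} [AddCommGroup P] [Module R P] {X : Type} [AddCommGroup X]
    [Module R X] (h : Filt R P X) {p q r : ℕ} {A : Matrix (Fin p) (Fin q) R}
    {B : Matrix (Fin q) (Fin r) R} (hAB : A * B = 0) (hP : Ex P A B) : Ex X A B := by
  induction h with
  | zero X h => exact Ex.of_subsingleton
  | step X' X f g h hX' ih => exact h.ex_mid hAB ih hP

end Pool.Agent.Helper35.ARC2
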