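import Pool.Agent.Helper35.ARC2.Res
import Pool.Agent.Helper35.AR.LoewyCore

set_option autoImplicit false

/-!
# Ascent of the Auslander-Reiten conjecture
-/

open CategoryTheory Abelian IsLocalRing

namespace Pool.Agent.Helper35.ARC2

open Pool.Agent.Helper35.AR

theorem dualExact_iff (S : Type) [CommRing S] : DualExact S ↔
    ∀ (n : ℕ → ℕ) (D : ∀ i, Matrix (Fin (n (i + 1))) (Fin (n i)) S),
    (∀ i, D (i + 1) * D i = 0) → ExactFrom1 S D → TorEx S (fun i => (D i).transpose) := by
  unfold DualExact ExactFrom1 TorEx Ex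
  simp only [act_mulVec]

theorem syz_iff (R : Type) [CommRing R] {K : Type} [AddCommGroup K] [Module R K] :
    ∀ (k : ℕ) (M : Type) [AddCommGroup M] [Module R M], Syz R K k M ↔ IsSyz R K k M := by
  intro k
  induction k with
  | zero =>
    intro M _ _
    exact Iff.rfl
  | succ k ih =>
    intro M _ _
    constructor
    · rintro ⟨m, π, hπ, h⟩
      exact ⟨m, π, hπ, (ih _).mp h⟩
    · rintro ⟨m, π, hπ, h⟩
      exact ⟨m, π, hπ, (ih _).mpr h⟩

variable {R S : Type} [CommRing R] [CommRing S] [Algebra R S]

lemma matrix_mul_eq_zero {p q r : ℕ} {A : Matrix (Fin p) (Fin q) R} {B : Matrix (Fin q) (Fin r) R}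
    (h : ∀ u, act R A (act R B u) = 0) : A * B = 0 := by
  ext a b
  have h1 := congrFun (h (Pi.single b 1)) a
  rw [act_act, act_mulVec] at h1
  simpa using h1

lemma ex_map {p q r : ℕ} {A : Matrix (Fin p) (Fin q) R} {B : Matrix (Fin q) (Fin r) R}
    {N : Type} [AddCommGroup N] [Module R N] [Module S N] [IsScalarTower R S N] :
    Ex N (A.map (algebraMap R S)) (B.map (algebraMap R S)) ↔ Ex N A B := by
  unfold Ex
  simp only [act_algebraMap]

/-- If `S` reverses exact complexes, the exactness of a complex with coefficients `S` implies the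
exactness of the dual complex. -/
lemma DualExact.torEx (hS : DualExact S) {n : ℕ → ℕ}
    {D : ∀ i, Matrix (Fin (n (i + 1))) (Fin (n i)) R} (hD : ∀ i, D (i + 1) * D i = 0)
    (h : ExactFrom1 S D) : TorEx S (fun i => (D i).transpose) := by
  intro i
  have h1 := (dualExact_iff S).mp hS n (fun i => (D i).map (algebraMap R S)) (fun i => by
    rw [← Matrix.map_mul, hD, Matrix.map_zero _ (map_zero _)]) (fun i => ex_map.mpr (h i)) i
  exact ex_map.mp h1

/-- A surjection onto a projective module with kernel in `𝔪 F` is injective. -/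
lemma ker_eq_bot_of_projective [IsLocalRing S] [IsNoetherianRing S] {N : Type} [AddCommGroup N]
    [Module S N] [Module.Projective S N] {c : ℕ} (π : (Fin c → S) →ₗ[S] N)
    (hπ : Function.Surjective π) (hmin : LinearMap.ker π ≤ maximalIdeal S • ⊤) :
    LinearMap.ker π = ⊥ := by
  obtain ⟨s, hs⟩ := Module.projective_lifting_property π LinearMap.id hπ
  have h1 : ∀ x, π (s x) = x := fun x => LinearMap.congr_fun hs x
  let ρ : (Fin c → S) →ₗ[S] (Fin c → S) := LinearMap.id - s.comp π
  have hρ : ∀ x, ρ x ∈ LinearMap.ker π := by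
    intro x
    rw [LinearMap.mem_ker]
    simp [ρ, h1]
  have h2 : LinearMap.ker π ≤ maximalIdeal S • LinearMap.ker π := by
    intro x hx
    have hx2 : ρ x = x := by
      simp [ρ, LinearMap.mem_ker.mp hx]
    rw [← hx2]
    have h3 : ρ x ∈ (maximalIdeal S • (⊤ : Submodule S (Fin c → S))).map ρ :=
      Submodule.mem_map_of_mem (hmin hx)
    rw [Submodule.map_smul''] at h3
    refine Submodule.smul_mono le_rfl ?_ h3
    rintro _ ⟨y, -, rfl⟩
    exact hρ y
  refine Submodule.eq_bot_of_le_smul_of_le_jacobson_bot (maximalIdeal S) _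
    (IsNoetherian.noetherian _) h2 ?_
  rw [IsLocalRing.jacobson_eq_maximalIdeal _ bot_ne_top]

/-- The transfer of the conjecture along a surjection. -/
theorem transfer [IsLocalRing R] [IsNoetherianRing R] [Nontrivial S]
    (hsurj : Function.Surjective (algebraMap R S)) (hS : ARC S) {M : Type} [AddCommGroup M]
    [Module R M] {n : ℕ → ℕ}
    {d : ∀ i, Matrix (Fin (n i)) (Fin (n (i + 1))) R} {π : (Fin (n 0) → R) →ₗ[R] M}
    (hmin : MinCov π) (h0 : LinearMap.range (act R (d 0)) = LinearMap.ker π)
    (hdd : ∀ i, d i * d (i + 1) = 0) (hT : TorEx S d)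
    (hXS : ExactFrom1 S (fun i => (d i).transpose))
    (hXN : ExactFrom1 (Cok (d 0) S) (fun i => (d i).transpose)) : LinearMap.ker π = ⊥ := by
  have hloc : IsLocalRing S := IsLocalRing.of_surjective' (algebraMap R S) hsurj
  have hnoeth : IsNoetherianRing S := isNoetherianRing_of_surjective R S _ hsurj
  have hlochom : ∀ r ∈ maximalIdeal R, algebraMap R S r ∈ maximalIdeal S := by
    intro r hr
    have := IsLocalHom.of_surjective (algebraMap R S) hsurj
    rw [mem_maximalIdeal, mem_nonunits_iff] at hr ⊢
    exact fun hu => hr (isUnit_of_map_unit (algebraMap R S) r hu)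
  let e : ∀ i, Matrix (Fin (n i)) (Fin (n (i + 1))) S := fun i => (d i).map (algebraMap R S)
  let L : Submodule S (Fin (n 0) → S) := LinearMap.range (act S (e 0))
  let N := (Fin (n 0) → S) ⧸ L
  have hact : ∀ (i : ℕ) (v : Fin (n (i + 1)) → S), act S (e i) v = act (R := R) S (d i) v :=
    fun i v => act_algebraMap (S := S) (d i) v
  have hee : ∀ i, LinearMap.range (act S (e (i + 1))) = LinearMap.ker (act S (e i)) := by
    intro i
    apply le_antisymm
    · rintro _ ⟨u, rfl⟩
      rw [LinearMap.mem_ker, hact, hact, act_act_zero (hdd i)]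
    · intro v hv
      rw [LinearMap.mem_ker, hact] at hv
      obtain ⟨w, hw⟩ := hT i v hv
      exact ⟨w, by rw [hact]; exact hw.symm⟩
  -- the two vanishing conditions over `S`
  let ρ : (Fin (n 0) → S) →ₗ[S] N := L.mkQ
  have hρ : Function.Surjective ρ := Submodule.mkQ_surjective _
  have hρker : LinearMap.range (act S (e 0)) = LinearMap.ker ρ := (Submodule.ker_mkQ _).symm
  have hN1 : ∀ i : ℕ, 0 < i → Subsingleton (Ext (ModuleCat.of S N) (ModuleCat.of S S) i) := by
    refine ext_of_exact hρ hρker hee fun i => ?_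
    have h1 := hXS i
    rw [← ex_map (S := S)] at h1
    exact h1
  have hN2 : ∀ i : ℕ, 0 < i → Subsingleton (Ext (ModuleCat.of S N) (ModuleCat.of S N) i) := by
    refine ext_of_exact hρ hρker hee fun i => ?_
    have eq1 : LinearMap.range (act (R := R) S (d 0)) = LinearMap.ker (ρ.restrictScalars R) := by
      ext v
      rw [LinearMap.mem_ker, LinearMap.restrictScalars_apply, ← LinearMap.mem_ker, ← hρker]
      constructor
      · rintro ⟨w, hw⟩
        exact ⟨w, by rw [hact]; exact hw⟩
      · rintro ⟨w, hw⟩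
        exact ⟨w, by rw [← hact]; exact hw⟩
    have e1 : Cok (d 0) S ≃ₗ[R] N :=
      (Submodule.quotEquivOfEq _ _ eq1).trans
        ((ρ.restrictScalars R).quotKerEquivOfSurjective hρ)
    have h1 : Ex (R := R) N (d (i + 1)).transpose (d i).transpose := Ex.of_equiv e1 (hXN i)
    rw [← ex_map (S := S)] at h1
    exact h1
  have hfree : Module.Free S N := hS N hN1 hN2
  -- the range of the reduction is zero
  have hLmin : LinearMap.ker ρ ≤ maximalIdeal S • ⊤ := by
    rw [← hρker]
    rintro _ ⟨v, rfl⟩
    rw [mem_smul_top_iff]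
    intro a
    rw [act_apply]
    refine Submodule.sum_mem _ fun b _ => Ideal.mul_mem_right _ _ (hlochom _ ?_)
    have h1 : act R (d 0) (Pi.single b 1) ∈ LinearMap.ker π := by
      rw [← h0]
      exact ⟨_, rfl⟩
    have h2 := (mem_smul_top_iff _ _).1 (hmin.2 h1) a
    simpa [act_apply, Pi.single_apply] using h2
  have hbot := ker_eq_bot_of_projective ρ hρ hLmin
  rw [← hρker] at hbot
  -- the final application of the lemma of Nakayama
  have hfin : LinearMap.ker π ≤ maximalIdeal R • LinearMap.ker π := by
    intro v hv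
    rw [← h0] at hv
    obtain ⟨w, rfl⟩ := hv
    have h1 : act (R := R) S (d 0) (fun b => algebraMap R S (w b)) = 0 := by
      rw [← hact]
      have : act S (e 0) (fun b => algebraMap R S (w b)) ∈ LinearMap.range (act S (e 0)) :=
        ⟨_, rfl⟩
      rw [hbot] at this
      exact (Submodule.mem_bot S).mp this
    obtain ⟨u'', hu''⟩ := hT 0 _ h1
    choose u hu using fun b => hsurj (u'' b)
    have h2 : act R (d 0) w = act R (d 0) (w - act R (d 1) u) := by
      rw [map_sub, act_act_zero (hdd 0), sub_zero]
    rw [h2]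
    have h3 : ∀ b, (w - act R (d 1) u) b ∈ maximalIdeal R := by
      intro b
      have h4 : algebraMap R S ((w - act R (d 1) u) b) = 0 := by
        have h5 := congrFun hu'' b
        have h6 := congrFun (act_map (Algebra.linearMap R S) (d 1) u) b
        simp only [Algebra.linearMap_apply, hu] at h6
        rw [Pi.sub_apply, map_sub, ← h6]
        rw [sub_eq_zero]
        exact h5
      by_contra h7
      rw [mem_maximalIdeal, mem_nonunits_iff, not_not] at h7
      have h8 := h7.map (algebraMap R S)
      rw [h4] at h8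
      exact not_isUnit_zero h8
    have h9 : act R (d 0) (w - act R (d 1) u)
        = ∑ b, (w - act R (d 1) u) b • act R (d 0) (Pi.single b 1) := by
      conv_lhs => rw [← Finset.univ_sum_single (w - act R (d 1) u)]
      rw [map_sum]
      refine Finset.sum_congr rfl fun b _ => ?_
      rw [← map_smul]
      congr 1
      funext a
      simp [Pi.single_apply]
    rw [h9]
    refine Submodule.sum_mem _ fun b _ => Submodule.smul_mem_smul (h3 b) ?_
    rw [← h0]
    exact ⟨_, rfl⟩
  refine Submodule.eq_bot_of_le_smul_of_le_jacobson_bot (maximalIdeal R) _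
    (IsNoetherian.noetherian _) hfin ?_
  rw [IsLocalRing.jacobson_eq_maximalIdeal _ bot_ne_top]

end Pool.Agent.Helper35.ARC2
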