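import Pool.Agent.Helper35.ARC2.Flat

set_option autoImplicit false

/-!
# The class of rings
-/

open CategoryTheory Abelian IsLocalRing

namespace Pool.Agent.Helper35.ARC2

open Pool.Agent.Helper35.AR

theorem Tower.good {R : Type} [CommRing R] (h : Tower R) :
    IsNoetherianRing R ∧ IsLocalRing R ∧ DualExact R ∧ ARC R := by
  induction h with
  | gorenstein R e h hA =>
    exact ⟨inferInstance, inferInstance, dualExact_of_injectiveDimension R e, hA⟩
  | cube R e h h3 =>
    exact ⟨inferInstance, inferInstance, dualExact_of_injectiveDimension R e,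
      arc_of_cube_zero R h3⟩
  | dualExact R h hA => exact ⟨inferInstance, inferInstance, h, hA⟩
  | kernel R S hsurj m hm e hS ih =>
    obtain ⟨_, _, h1, h2⟩ := ih
    have hg := growExt_of_kernel hsurj hm e
    exact ⟨inferInstance, inferInstance, hg.dual h1, hg.arc h1 h2⟩
  | flat A R hA hS ih =>
    obtain ⟨_, _, h1, h2⟩ := ih
    have hg := growExt_of_flat (R := R) hA
    exact ⟨inferInstance, inferInstance, hg.dual h1, hg.arc h1 h2⟩
  | growing R S hg hS ih =>
    obtain ⟨_, _, h1, h2⟩ := ih
    exact ⟨inferInstance, inferInstance, hg.dual h1, hg.arc h1 h2⟩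
  | lift R x hxm hx hS ih =>
    obtain ⟨_, _, h1, h2⟩ := ih
    exact ⟨inferInstance, inferInstance, lift_dual hxm hx h1, lift_arc hxm hx h2⟩

end Pool.Agent.Helper35.ARC2
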