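import Pool.Agent.Helper35.ARC2.Grow

set_option autoImplicit false

/-!
# Cokernels
-/

namespace Pool.Agent.Helper35.ARC2


variable {R : Type} [CommRing R] {p q r : ℕ}

/-- The cokernel of the action of a matrix on tuples of elements of `X` (a model of the tensor
product of `X` with the cokernel of the matrix). -/
abbrev Cok (A : Matrix (Fin p) (Fin q) R) (X : Type) [AddCommGroup X] [Module R X] : Type :=
  (Fin p → X) ⧸ LinearMap.range (act X A)

variable (A : Matrix (Fin p) (Fin q) R) {B : Matrix (Fin q) (Fin r) R}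
variable {X Y Z : Type} [AddCommGroup X] [Module R X] [AddCommGroup Y] [Module R Y]
  [AddCommGroup Z] [Module R Z]

/-- functoriality -/
def cokMap (f : X →ₗ[R] Y) : Cok A X →ₗ[R] Cok A Y :=
  Submodule.mapQ _ _ (f.compLeft (Fin p)) (by
    rintro _ ⟨v, rfl⟩
    exact ⟨fun b => f (v b), act_map f A v⟩)

lemma cokMap_mk (f : X →ₗ[R] Y) (v : Fin p → X) :
    cokMap A f (Submodule.Quotient.mk v) = Submodule.Quotient.mk (fun b => f (v b)) := rfl

variable {A} in
lemma SES.cok {f : X →ₗ[R] Y} {g : Y →ₗ[R] Z} (h : SES f g) (hAB : A * B = 0) (hZ : Ex Z A B) :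
    SES (cokMap A f) (cokMap A g) where
  inj := by
    rw [injective_iff_map_eq_zero]
    intro x hx
    obtain ⟨v, rfl⟩ := Submodule.Quotient.mk_surjective _ x
    rw [cokMap_mk, Submodule.Quotient.mk_eq_zero] at hx
    obtain ⟨u, hu⟩ := hx
    obtain ⟨t'', ht''⟩ := hZ (fun b => g (u b)) (by
      rw [act_map g A u, hu]
      funext a
      simp [h.gf])
    obtain ⟨t, ht⟩ := h.lift t''
    obtain ⟨u', hu'⟩ := h.pull (u - act Y B t) (by
      funext b
      have h3 := congrFun ht'' b
      have h4 := congrFun (act_map g B t) b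
      simp only [ht] at h4
      simp only [Pi.sub_apply, map_sub, Pi.zero_apply]
      rw [← h4, ← h3, sub_self])
    rw [Submodule.Quotient.mk_eq_zero]
    refine ⟨u', h.inj' ?_⟩
    rw [← act_map f A u', hu', map_sub, hu, act_act_zero hAB, sub_zero]
  surj := by
    intro z
    obtain ⟨w, rfl⟩ := Submodule.Quotient.mk_surjective _ z
    obtain ⟨v, rfl⟩ := h.lift w
    exact ⟨Submodule.Quotient.mk v, rfl⟩
  exact := by
    intro y
    obtain ⟨v, rfl⟩ := Submodule.Quotient.mk_surjective _ y
    rw [cokMap_mk, Submodule.Quotient.mk_eq_zero]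
    constructor
    · rintro ⟨w'', hw''⟩
      obtain ⟨w, rfl⟩ := h.lift w''
      obtain ⟨x, hx⟩ := h.pull (v - act Y A w) (by
        funext b
        have h4 := congrFun (act_map g A w) b
        have h5 := congrFun hw'' b
        simp only [Pi.sub_apply, map_sub, Pi.zero_apply]
        rw [← h4, ← h5, sub_self])
      refine ⟨Submodule.Quotient.mk x, ?_⟩
      rw [cokMap_mk, hx, Submodule.Quotient.eq]
      exact ⟨-w, by rw [map_neg]; abel⟩
    · rintro ⟨x', hx'⟩
      obtain ⟨x, rfl⟩ := Submodule.Quotient.mk_surjective _ x'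
      rw [cokMap_mk, Submodule.Quotient.eq] at hx'
      obtain ⟨w, hw⟩ := hx'
      refine ⟨fun b => g (-(w b)), ?_⟩
      rw [act_map g A (fun b => -(w b))]
      funext a
      have h1 : act Y A (fun b => -(w b)) = -((fun b => f (x b)) - v) := by
        rw [← hw, ← map_neg]
        rfl
      rw [h1]
      simp [h.gf]

variable {A} in
theorem Filt.cok {P : Type} [AddCommGroup P] [Module R P] (hAB : A * B = 0) (hP : Ex P A B)
    {X : Type} [AddCommGroup X] [Module R X] (h : Filt R P X) :
    Filt R (Cok A P) (Cok A X) := by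
  induction h with
  | zero X h =>
    refine Filt.zero _ ?_
    have : Subsingleton (Fin p → X) := inferInstance
    exact ⟨fun x y => by
      obtain ⟨v, rfl⟩ := Submodule.Quotient.mk_surjective _ x
      obtain ⟨w, rfl⟩ := Submodule.Quotient.mk_surjective _ y
      rw [Subsingleton.elim v w]⟩
  | step X' X f g h hX' ih => exact Filt.step _ _ _ _ (h.cok hAB hP) ih

theorem Retr.cok {W : Type} [AddCommGroup W] [Module R W] (h : Retr R X Y W) :
    Retr R (Cok A X) (Cok A Y) (Cok A W) := by
  obtain ⟨ι₁, ι₂, ρ₁, ρ₂, h11, h22, h12, h21⟩ := h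
  refine ⟨cokMap A ι₁, cokMap A ι₂, cokMap A ρ₁, cokMap A ρ₂, ?_, ?_, ?_, ?_⟩
  · intro x
    obtain ⟨v, rfl⟩ := Submodule.Quotient.mk_surjective _ x
    rw [cokMap_mk, cokMap_mk]
    simp only [h11]
  · intro x
    obtain ⟨v, rfl⟩ := Submodule.Quotient.mk_surjective _ x
    rw [cokMap_mk, cokMap_mk]
    simp only [h22]
  · intro x
    obtain ⟨v, rfl⟩ := Submodule.Quotient.mk_surjective _ x
    rw [cokMap_mk, cokMap_mk]
    simp only [h12]
    rfl
  · intro x
    obtain ⟨v, rfl⟩ := Submodule.Quotient.mk_surjective _ x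
    rw [cokMap_mk, cokMap_mk]
    simp only [h21]
    rfl

/-- the cokernel for an isomorphic module -/
noncomputable def cokEquiv (e : X ≃ₗ[R] Y) : Cok A X ≃ₗ[R] Cok A Y :=
  LinearEquiv.ofLinearMap (cokMap A e.toLinearMap) (cokMap A e.symm.toLinearMap)
    (by
      apply LinearMap.ext
      intro x
      obtain ⟨v, rfl⟩ := Submodule.Quotient.mk_surjective _ x
      simp [cokMap_mk])
    (by
      apply LinearMap.ext
      intro x
      obtain ⟨v, rfl⟩ := Submodule.Quotient.mk_surjective _ x
      simp [cokMap_mk])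

/-- finite free modules are filtered by the ring -/
theorem filt_fun (P : Type) [AddCommGroup P] [Module R P] (m : ℕ) : Filt R P (Fin m → P) := by
  induction m with
  | zero => exact Filt.zero _ inferInstance
  | succ m ih =>
    refine Filt.step (Fin m → P) (Fin (m + 1) → P)
      (LinearMap.pi fun i : Fin (m + 1) =>
        (Fin.cases (0 : (Fin m → P) →ₗ[R] P) (fun j => LinearMap.proj j) i))
      (LinearMap.proj 0) ⟨?_, ?_, ?_⟩ ih
    · intro v w hvw
      funext j
      have := congrFun hvw j.succ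
      simpa using this
    · intro x
      exact ⟨fun _ => x, rfl⟩
    · intro v
      constructor
      · intro hv
        refine ⟨fun j => v j.succ, ?_⟩
        funext i
        refine Fin.cases ?_ (fun j => ?_) i
        · simpa using hv.symm
        · simp
      · rintro ⟨w, rfl⟩
        simp

section chain

variable {n : ℕ → ℕ} {D : ∀ i, Matrix (Fin (n (i + 1))) (Fin (n i)) R}
variable {n' : ℕ → ℕ} {d : ∀ i, Matrix (Fin (n' i)) (Fin (n' (i + 1))) R}

lemma ses_ker {F Y : Type} [AddCommGroup F] [Module R F] [AddCommGroup Y] [Module R Y]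
    (π : F →ₗ[R] Y) (hπ : Function.Surjective π) : SES (LinearMap.ker π).subtype π where
  inj := Subtype.val_injective
  surj := hπ
  exact := fun x => ⟨fun h => ⟨⟨x, h⟩, rfl⟩, by rintro ⟨y, rfl⟩; exact y.2⟩

theorem exactFrom1_of_filt {P : Type} [AddCommGroup P] [Module R P]
    (hD : ∀ i, D (i + 1) * D i = 0) (h : ExactFrom1 P D) {X : Type} [AddCommGroup X] [Module R X]
    (hX : Filt R P X) : ExactFrom1 X D := fun i => hX.ex (hD i) (h i)

theorem chain_of_isSyz (hD : ∀ i, D (i + 1) * D i = 0) (hR : ExactFrom1 R D) {K : Type}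
    [AddCommGroup K] [Module R K] : ∀ (k : ℕ) (P : Type) [AddCommGroup P] [Module R P],
    Syz R K k P → Chain D K k P := by
  intro k
  induction k with
  | zero =>
    intro P _ _ h
    obtain ⟨e⟩ := h
    exact Chain.nil P e
  | succ k ih =>
    intro P _ _ h
    obtain ⟨m, π, hπ, hk⟩ := h
    exact Chain.cons k _ _ P _ _ (ses_ker π hπ) (exactFrom1_of_filt hD hR (filt_fun R m))
      (ih _ hk)

/-- The complex `⋯ → X ^ (n 1) → X ^ (n 0)` is exact in all positive degrees. -/
def TorEx (X : Type) [AddCommGroup X] [Module R X]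
    (d : ∀ i, Matrix (Fin (n' i)) (Fin (n' (i + 1))) R) : Prop :=
  ∀ i : ℕ, Ex X (d i) (d (i + 1))

theorem torEx_of_filt {P : Type} [AddCommGroup P] [Module R P]
    (hd : ∀ i, d i * d (i + 1) = 0) (h : TorEx P d) {X : Type} [AddCommGroup X] [Module R X]
    (hX : Filt R P X) : TorEx X d := fun i => hX.ex (hd i) (h i)

theorem chain_cok (hD : ∀ i, D (i + 1) * D i = 0) (hd : ∀ i, d i * d (i + 1) = 0)
    (hR : TorEx R d) (hM : ExactFrom1 (Cok (d 0) R) D) {K : Type}
    [AddCommGroup K] [Module R K] : ∀ (k : ℕ) (P : Type) [AddCommGroup P] [Module R P],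
    TorEx P d → Syz R K k P → Chain D (Cok (d 0) K) k (Cok (d 0) P) := by
  intro k
  induction k with
  | zero =>
    intro P _ _ _ h
    obtain ⟨e⟩ := h
    exact Chain.nil _ (cokEquiv (d 0) e)
  | succ k ih =>
    intro P _ _ hP h
    obtain ⟨m, π, hπ, hk⟩ := h
    have hs := ses_ker π hπ
    have hm : TorEx (Fin m → R) d := torEx_of_filt hd hR (filt_fun R m)
    have hK : TorEx (LinearMap.ker π) d := fun i => hs.ex_left (hd (i + 1)) (hm i) (hP (i + 1))
    refine Chain.cons k _ _ _ _ _ (hs.cok (hd 0) (hP 0)) ?_ (ih _ hK hk)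
    exact exactFrom1_of_filt hD hM ((filt_fun R m).cok (hd 0) (hR 0))

end chain

end Pool.Agent.Helper35.ARC2
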