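import Mathlib

set_option autoImplicit false

/-!
# Definitions for the class of rings
-/

open CategoryTheory Abelian IsLocalRing

namespace Pool.Agent.Helper35.ARC2

/-- The Auslander-Reiten conjecture holds for all finitely generated modules over `R`. -/
def ARC (R : Type) [CommRing R] : Prop :=
  ∀ [HasExt.{0} (ModuleCat.{0} R)] (M : Type) [AddCommGroup M] [Module R M] [Module.Finite R M],
    (∀ i : ℕ, 0 < i → Subsingleton (Ext (ModuleCat.of R M) (ModuleCat.of R R) i)) →
    (∀ i : ℕ, 0 < i → Subsingleton (Ext (ModuleCat.of R M) (ModuleCat.of R M) i)) →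
    Module.Free R M

/-- Let `D i : S ^ (n i) → S ^ (n (i + 1))`, `i ≥ 0`, be a complex which is exact at `S ^ (n i)` for
`i ≥ 1`. Then the dual complex, given by the transposed matrices, is exact at the same places. -/
def DualExact (S : Type) [CommRing S] : Prop :=
  ∀ (n : ℕ → ℕ) (D : ∀ i, Matrix (Fin (n (i + 1))) (Fin (n i)) S),
    (∀ i, D (i + 1) * D i = 0) →
    (∀ i (v : Fin (n (i + 1)) → S), (D (i + 1)).mulVec v = 0 → ∃ w, v = (D i).mulVec w) →
    ∀ i (v : Fin (n (i + 1)) → S), (D i).transpose.mulVec v = 0 →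
      ∃ w, v = (D (i + 1)).transpose.mulVec w

/-- `Syz R K k M`: the module `K` is a `k`-th syzygy of the module `M`. -/
def Syz (R : Type) [CommRing R] (K : Type) [AddCommGroup K] [Module R K] :
    ℕ → (M : Type) → [AddCommGroup M] → [Module R M] → Prop
  | 0, M, _, _ => Nonempty (M ≃ₗ[R] K)
  | k + 1, M, _, _ => ∃ (m : ℕ) (π : (Fin m → R) →ₗ[R] M), Function.Surjective π ∧
      Syz R K k (LinearMap.ker π)

/-- `0 → X' → X → X'' → 0` is exact. -/
structure SES {R X' X X'' : Type} [CommRing R] [AddCommGroup X'] [Module R X'] [AddCommGroup X]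
    [Module R X] [AddCommGroup X''] [Module R X''] (f : X' →ₗ[R] X) (g : X →ₗ[R] X'') : Prop where
  inj : Function.Injective f
  surj : Function.Surjective g
  exact : ∀ x, g x = 0 ↔ ∃ x', f x' = x

/-- `X` has a finite filtration with all factors isomorphic to `P`. -/
inductive Filt (R : Type) [CommRing R] (P : Type) [AddCommGroup P] [Module R P] :
    ∀ (X : Type) [AddCommGroup X] [Module R X], Prop
  | zero (X : Type) [AddCommGroup X] [Module R X] (h : Subsingleton X) : Filt R P X
  | step (X' X : Type) [AddCommGroup X'] [Module R X'] [AddCommGroup X] [Module R X]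
      (f : X' →ₗ[R] X) (g : X →ₗ[R] P) (h : SES f g) (hX' : Filt R P X') : Filt R P X

/-- `P₁ ⊕ P₂` is a direct summand of `X`. -/
def Retr (R : Type) [CommRing R] (P₁ P₂ X : Type) [AddCommGroup P₁] [Module R P₁]
    [AddCommGroup P₂] [Module R P₂] [AddCommGroup X] [Module R X] : Prop :=
  ∃ (ι₁ : P₁ →ₗ[R] X) (ι₂ : P₂ →ₗ[R] X) (ρ₁ : X →ₗ[R] P₁) (ρ₂ : X →ₗ[R] P₂),
    (∀ p, ρ₁ (ι₁ p) = p) ∧ (∀ p, ρ₂ (ι₂ p) = p) ∧ (∀ p, ρ₁ (ι₂ p) = 0) ∧ (∀ p, ρ₂ (ι₁ p) = 0)

/-- Some `k`-th syzygy `K` of the residue field of `A` contains as a direct summand `K₁ ⊕ K₂`,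
where `K₁` is a `k₁`-th and `K₂` a `k₂`-th syzygy of the residue field and `k₁, k₂ < k` (for
instance `K₁` and `K₂` isomorphic to the residue field). -/
def GrowRing (A : Type) [CommRing A] [IsLocalRing A] : Prop :=
  ∃ (k k₁ k₂ : ℕ) (K K₁ K₂ : Type) (_ : AddCommGroup K) (_ : Module A K)
      (_ : AddCommGroup K₁) (_ : Module A K₁) (_ : AddCommGroup K₂) (_ : Module A K₂),
      k₁ < k ∧ k₂ < k ∧ Syz A K k (A ⧸ maximalIdeal A) ∧ Syz A K₁ k₁ (A ⧸ maximalIdeal A) ∧
      Syz A K₂ k₂ (A ⧸ maximalIdeal A) ∧ Retr A K₁ K₂ K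

/-- `R` maps onto `S`, has a finite filtration by ideals with all factors isomorphic to `S` as
`R`-modules, and some `k`-th syzygy `K` of the `R`-module `S` also has such a filtration and
contains as a direct summand `K₁ ⊕ K₂`, where `K₁` is a `k₁`-th and `K₂` a `k₂`-th syzygy of `S`
with `k₁, k₂ < k` (for instance `K₁ = K₂ = S`). -/
def GrowExt (R S : Type) [CommRing R] [CommRing S] [Algebra R S] : Prop :=
  Function.Surjective (algebraMap R S) ∧ Filt R S R ∧
    ∃ (k k₁ k₂ : ℕ) (K K₁ K₂ : Type) (_ : AddCommGroup K) (_ : Module R K)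
      (_ : AddCommGroup K₁) (_ : Module R K₁) (_ : AddCommGroup K₂) (_ : Module R K₂),
      k₁ < k ∧ k₂ < k ∧ Syz R K k S ∧ Syz R K₁ k₁ S ∧ Syz R K₂ k₂ S ∧
      Retr R K₁ K₂ K ∧ Filt R S K

/-- The smallest class of Noetherian local rings which contains the rings satisfying the
Auslander-Reiten conjecture over which exact complexes have exact duals (for example the Gorenstein
rings satisfying the conjecture) and is closed under the extensions and liftings below. -/
inductive Tower : ∀ (R : Type) [CommRing R], Prop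
  /-- Gorenstein rings satisfying the conjecture -/
  | gorenstein (R : Type) [CommRing R] [IsNoetherianRing R] [IsLocalRing R] (e : ℕ)
      (h : HasInjectiveDimensionLT (ModuleCat.of R R) e) (hA : ARC R) : Tower R
  /-- Gorenstein rings whose maximal ideal has cube zero -/
  | cube (R : Type) [CommRing R] [IsNoetherianRing R] [IsLocalRing R] (e : ℕ)
      (h : HasInjectiveDimensionLT (ModuleCat.of R R) e) (h3 : maximalIdeal R ^ 3 = ⊥) : Tower R
  /-- more generally, rings satisfying the conjecture over which the dual of every exact complex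
  `F⁰ → F¹ → ⋯` of finitely generated free modules is exact -/
  | dualExact (R : Type) [CommRing R] [IsNoetherianRing R] [IsLocalRing R] (h : DualExact R)
      (hA : ARC R) : Tower R
  /-- surjections with kernel isomorphic to `S ^ m`, `m ≥ 2` -/
  | kernel (R S : Type) [CommRing R] [CommRing S] [Algebra R S] [IsNoetherianRing R]
      [IsLocalRing R] (hsurj : Function.Surjective (algebraMap R S)) (m : ℕ) (hm : 2 ≤ m)
      (e : (Fin m → S) ≃ₗ[R] RingHom.ker (algebraMap R S)) (hS : Tower S) : Tower R
  /-- flat extensions of an Artinian local ring `A` such that some syzygy of the residue field of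
  `A` contains two earlier syzygies as a direct summand -/
  | flat (A R : Type) [CommRing A] [IsArtinianRing A] [IsLocalRing A] [CommRing R] [Algebra A R]
      [Module.Flat A R] [IsNoetherianRing R] [IsLocalRing R] (h : GrowRing A)
      (hS : Tower (R ⧸ (maximalIdeal A).map (algebraMap A R))) : Tower R
  /-- the common generalisation of the two previous steps -/
  | growing (R S : Type) [CommRing R] [CommRing S] [Algebra R S] [IsNoetherianRing R]
      [IsLocalRing R] (h : GrowExt R S) (hS : Tower S) : Tower R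
  /-- liftings modulo a nonzerodivisor of the maximal ideal -/
  | lift (R : Type) [CommRing R] [IsNoetherianRing R] [IsLocalRing R] (x : R)
      (hxm : x ∈ maximalIdeal R) (hx : x ∈ nonZeroDivisors R)
      (hS : Tower (R ⧸ Ideal.span {x})) : Tower R

end Pool.Agent.Helper35.ARC2
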