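import Pool.Agent.Helper35.ARC2.Tower

set_option autoImplicit false

/-!
# Two sources of growing extensions
-/

open IsLocalRing TensorProduct

namespace Pool.Agent.Helper35.ARC2

open Pool.Agent.Helper35.AR

section congr

variable {R : Type} [CommRing R]

theorem Filt.congr {P P' X : Type} [AddCommGroup P] [Module R P] [AddCommGroup P'] [Module R P']
    [AddCommGroup X] [Module R X] (e : P ≃ₗ[R] P') (h : Filt R P X) : Filt R P' X := by
  induction h with
  | zero X h => exact Filt.zero X h
  | step X' X f g h _ ih =>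
    refine Filt.step X' X f (e.toLinearMap.comp g) ⟨h.inj, e.surjective.comp h.surj, fun x => ?_⟩ ih
    rw [LinearMap.comp_apply, LinearEquiv.coe_coe, LinearEquiv.map_eq_zero_iff]
    exact h.exact x

theorem Filt.congr' {P X X' : Type} [AddCommGroup P] [Module R P]
    [AddCommGroup X] [Module R X] [AddCommGroup X'] [Module R X'] (e : X ≃ₗ[R] X')
    (h : Filt R P X) : Filt R P X' := by
  cases h with
  | zero X h => exact Filt.zero X' (e.symm.injective.subsingleton)
  | step X₁ X f g h hX₁ =>
    refine Filt.step X₁ X' (e.toLinearMap.comp f) (g.comp e.symm.toLinearMap)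
      ⟨e.injective.comp h.inj, h.surj.comp e.symm.surjective, fun x => ?_⟩ hX₁
    rw [LinearMap.comp_apply, LinearEquiv.coe_coe, h.exact]
    constructor
    · rintro ⟨y, hy⟩
      exact ⟨y, by rw [LinearMap.comp_apply, hy]; simp⟩
    · rintro ⟨y, rfl⟩
      exact ⟨y, by simp⟩

theorem syz_congr {K : Type} [AddCommGroup K] [Module R K] : ∀ (k : ℕ) {M M' : Type}
    [AddCommGroup M] [Module R M] [AddCommGroup M'] [Module R M'] (_ : M ≃ₗ[R] M'),
    Syz R K k M → Syz R K k M' := by
  intro k
  cases k with
  | zero =>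
    rintro M M' _ _ _ _ e ⟨e'⟩
    exact ⟨e.symm.trans e'⟩
  | succ k =>
    rintro M M' _ _ _ _ e ⟨m, π, hπ, h⟩
    refine ⟨m, e.toLinearMap.comp π, e.surjective.comp hπ, ?_⟩
    have h1 : LinearMap.ker (e.toLinearMap.comp π) = LinearMap.ker π := by
      ext x
      simp
    rw [h1]
    exact h

end congr

section kernel

variable {R S : Type} [CommRing R] [CommRing S] [Algebra R S]

/-- a surjection whose kernel is a direct sum of at least two copies of the target -/
theorem growExt_of_kernel (hsurj : Function.Surjective (algebraMap R S)) {m : ℕ} (hm : 2 ≤ m)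
    (e : (Fin m → S) ≃ₗ[R] RingHom.ker (algebraMap R S)) : GrowExt R S := by
  have hs : SES (Submodule.subtype (RingHom.ker (algebraMap R S))) (Algebra.linearMap R S) :=
    { inj := Subtype.val_injective
      surj := hsurj
      exact := fun x => ⟨fun h => ⟨⟨x, h⟩, rfl⟩, by rintro ⟨y, rfl⟩; exact y.2⟩ }
  have hF : Filt R S (Fin m → S) := filt_fun S m
  refine ⟨hsurj, Filt.step _ _ _ _ hs (hF.congr' e), 1, 0, 0, (Fin m → S), S, S,
    inferInstance, inferInstance, inferInstance, inferInstance, inferInstance, inferInstance,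
    one_pos, one_pos, ?_, ⟨LinearEquiv.refl _ _⟩, ⟨LinearEquiv.refl _ _⟩, ?_, hF⟩
  · let u : (Fin 1 → R) ≃ₗ[R] R := LinearEquiv.funUnique (Fin 1) R R
    have h1 : (LinearMap.ker ((Algebra.linearMap R S).comp u.toLinearMap)).map u.toLinearMap
        = (RingHom.ker (algebraMap R S) : Submodule R R) := by
      ext x
      constructor
      · rintro ⟨y, hy, rfl⟩
        exact hy
      · intro hx
        exact ⟨u.symm x, by
          change algebraMap R S (u (u.symm x)) = 0
          rw [LinearEquiv.apply_symm_apply]
          exact hx, by simp⟩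
    have e2 : LinearMap.ker ((Algebra.linearMap R S).comp u.toLinearMap) ≃ₗ[R]
        RingHom.ker (algebraMap R S) := (u.submoduleMap _).trans (LinearEquiv.ofEq _ _ h1)
    exact ⟨1, (Algebra.linearMap R S).comp u.toLinearMap, hsurj.comp u.surjective,
      ⟨e2.trans e.symm⟩⟩
  · have h01 : (⟨0, by omega⟩ : Fin m) ≠ ⟨1, by omega⟩ := by
      intro h
      simpa using congrArg Fin.val h
    exact ⟨LinearMap.single R (fun _ => S) ⟨0, by omega⟩,
      LinearMap.single R (fun _ => S) ⟨1, by omega⟩,
      LinearMap.proj ⟨0, by omega⟩, LinearMap.proj ⟨1, by omega⟩,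
      fun p => by simp, fun p => by simp, fun p => by simp [h01], fun p => by simp [h01.symm]⟩

end kernel

section flat

variable {A R : Type} [CommRing A] [CommRing R] [Algebra A R] [Module.Flat A R]

theorem SES.baseChange {X Y Z : Type} [AddCommGroup X] [Module A X] [AddCommGroup Y] [Module A Y]
    [AddCommGroup Z] [Module A Z] {f : X →ₗ[A] Y} {g : Y →ₗ[A] Z} (h : SES f g) :
    SES (f.baseChange R) (g.baseChange R) where
  inj := by
    have := Module.Flat.lTensor_preserves_injective_linearMap (M := R) f h.inj
    exact this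
  surj := LinearMap.lTensor_surjective R h.surj
  exact := by
    have h1 : Function.Exact f g := fun y => by
      rw [h.exact]
      rfl
    have h2 := lTensor_exact R h1 h.surj
    intro y
    exact h2 y

theorem Filt.baseChange {P X : Type} [AddCommGroup P] [Module A P] [AddCommGroup X] [Module A X]
    (h : Filt A P X) : Filt R (R ⊗[A] P) (R ⊗[A] X) := by
  induction h with
  | zero X h => exact Filt.zero _ inferInstance
  | step X' X f g h _ ih => exact Filt.step _ _ _ _ h.baseChange ih

omit [Module.Flat A R] in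
theorem Retr.baseChange {P₁ P₂ X : Type} [AddCommGroup P₁] [Module A P₁] [AddCommGroup P₂]
    [Module A P₂] [AddCommGroup X] [Module A X] (h : Retr A P₁ P₂ X) :
    Retr R (R ⊗[A] P₁) (R ⊗[A] P₂) (R ⊗[A] X) := by
  obtain ⟨ι₁, ι₂, ρ₁, ρ₂, h11, h22, h12, h21⟩ := h
  refine ⟨ι₁.baseChange R, ι₂.baseChange R, ρ₁.baseChange R, ρ₂.baseChange R, ?_, ?_, ?_, ?_⟩
  · intro p
    induction p using TensorProduct.induction_on with
    | zero => simp
    | tmul r p => rw [LinearMap.baseChange_tmul, LinearMap.baseChange_tmul, h11]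
    | add x y hx hy => rw [map_add, map_add, hx, hy]
  · intro p
    induction p using TensorProduct.induction_on with
    | zero => simp
    | tmul r p => rw [LinearMap.baseChange_tmul, LinearMap.baseChange_tmul, h22]
    | add x y hx hy => rw [map_add, map_add, hx, hy]
  · intro p
    induction p using TensorProduct.induction_on with
    | zero => simp
    | tmul r p =>
      rw [LinearMap.baseChange_tmul, LinearMap.baseChange_tmul, h12, TensorProduct.tmul_zero]
    | add x y hx hy => rw [map_add, map_add, hx, hy, add_zero]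
  · intro p
    induction p using TensorProduct.induction_on with
    | zero => simp
    | tmul r p =>
      rw [LinearMap.baseChange_tmul, LinearMap.baseChange_tmul, h21, TensorProduct.tmul_zero]
    | add x y hx hy => rw [map_add, map_add, hx, hy, add_zero]

theorem syz_baseChange {K : Type} [AddCommGroup K] [Module A K] : ∀ (k : ℕ) (M : Type)
    [AddCommGroup M] [Module A M], Syz A K k M → Syz R (R ⊗[A] K) k (R ⊗[A] M) := by
  intro k
  induction k with
  | zero =>
    rintro M _ _ ⟨e⟩
    exact ⟨e.baseChange A R _ _⟩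
  | succ k ih =>
    rintro M _ _ ⟨m, π, hπ, hk⟩
    have hs := (ses_ker π hπ).baseChange (R := R)
    let u : R ⊗[A] (Fin m → A) ≃ₗ[R] (Fin m → R) := TensorProduct.piScalarRight A R R (Fin m)
    refine ⟨m, (π.baseChange R).comp u.symm.toLinearMap, hs.surj.comp u.symm.surjective, ?_⟩
    refine syz_congr k ?_ (ih _ hk)
    let v : R ⊗[A] (LinearMap.ker π) →ₗ[R] (Fin m → R) :=
      u.toLinearMap.comp ((LinearMap.ker π).subtype.baseChange R)
    have hv : Function.Injective v := u.injective.comp hs.inj
    refine (LinearEquiv.ofInjective v hv).trans (LinearEquiv.ofEq _ _ ?_)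
    ext x
    rw [LinearMap.mem_ker, LinearMap.comp_apply, LinearEquiv.coe_coe, hs.exact]
    constructor
    · rintro ⟨y, rfl⟩
      exact ⟨y, by simp [v]⟩
    · rintro ⟨y, hy⟩
      exact ⟨y, by
        change u ((LinearMap.ker π).subtype.baseChange R y) = x
        rw [hy, LinearEquiv.apply_symm_apply]⟩

end flat

section artinian

variable {A : Type} [CommRing A] [IsLocalRing A]

theorem filt_of_isFiniteLength {X : Type} [AddCommGroup X] [Module A X]
    (h : IsFiniteLength A X) : Filt A (A ⧸ maximalIdeal A) X := by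
  induction h with
  | of_subsingleton => exact Filt.zero _ inferInstance
  | @of_simple_quotient X _ _ N hN _ ih =>
    obtain ⟨I, hI, ⟨e⟩⟩ := isSimpleModule_iff_quot_maximal.1 hN
    obtain rfl := IsLocalRing.eq_maximalIdeal hI
    refine Filt.step N X N.subtype (e.toLinearMap.comp N.mkQ)
      ⟨Subtype.val_injective, e.surjective.comp (Submodule.mkQ_surjective _), fun x => ?_⟩ ih
    rw [LinearMap.comp_apply, LinearEquiv.coe_coe, LinearEquiv.map_eq_zero_iff,
      Submodule.mkQ_apply, Submodule.Quotient.mk_eq_zero]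
    exact ⟨fun h => ⟨⟨x, h⟩, rfl⟩, by rintro ⟨y, rfl⟩; exact y.2⟩

/-- a flat extension of an Artinian local ring with a syzygy of the residue field containing two
earlier syzygies -/
theorem growExt_of_flat [IsArtinianRing A] {R : Type} [CommRing R] [Algebra A R]
    [Module.Flat A R] (h : GrowRing A) :
    GrowExt R (R ⧸ (maximalIdeal A).map (algebraMap A R)) := by
  obtain ⟨k, k₁, k₂, K, K₁, K₂, _, _, _, _, _, _, hk₁, hk₂, hs, hs₁, hs₂, hr⟩ := h
  have hKfin : Module.Finite A K := finite_of_isSyz k _ ((syz_iff A k _).mp hs)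
  have hflA : IsFiniteLength A A := isFiniteLength_iff_isNoetherian_isArtinian.2
    ⟨inferInstance, inferInstance⟩
  have hflK : IsFiniteLength A K := isFiniteLength_iff_isNoetherian_isArtinian.2
    ⟨inferInstance, inferInstance⟩
  have e : (R ⊗[A] (A ⧸ maximalIdeal A)) ≃ₗ[R] (R ⧸ (maximalIdeal A).map (algebraMap A R)) :=
    ((maximalIdeal A).qoutMapEquivTensorQout R).symm
  refine ⟨Ideal.Quotient.mk_surjective, ?_, k, k₁, k₂, R ⊗[A] K, R ⊗[A] K₁, R ⊗[A] K₂,
    inferInstance, inferInstance, inferInstance, inferInstance, inferInstance, inferInstance,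
    hk₁, hk₂, ?_, ?_, ?_, hr.baseChange (R := R), ?_⟩
  · exact (((filt_of_isFiniteLength hflA).baseChange (R := R)).congr e).congr'
      (TensorProduct.AlgebraTensorModule.rid A R R)
  · exact syz_congr k e (syz_baseChange k _ hs)
  · exact syz_congr k₁ e (syz_baseChange k₁ _ hs₁)
  · exact syz_congr k₂ e (syz_baseChange k₂ _ hs₂)
  · exact ((filt_of_isFiniteLength hflK).baseChange (R := R)).congr e

end artinian

end Pool.Agent.Helper35.ARC2
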