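import Pool.Agent.Helper35.ARC2.Act

set_option autoImplicit false

/-!
# The growth argument
-/

namespace Pool.Agent.Helper35.ARC2

variable {R : Type} [CommRing R] {n : ℕ → ℕ}

/-- The complex `X ^ (n 0) → X ^ (n 1) → ⋯` is exact in all positive degrees. -/
def ExactFrom1 (X : Type) [AddCommGroup X] [Module R X]
    (D : ∀ i, Matrix (Fin (n (i + 1))) (Fin (n i)) R) : Prop :=
  ∀ i : ℕ, Ex X (D (i + 1)) (D i)

variable {D : ∀ i, Matrix (Fin (n (i + 1))) (Fin (n i)) R}

section steps

variable [IsLocalRing R]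

variable (D) in
/-- `𝔪 Z + B` -/
def T (P : Type) [AddCommGroup P] [Module R P] (i : ℕ) : Submodule R (Fin (n (i + 1)) → P) :=
  IsLocalRing.maximalIdeal R • LinearMap.ker (act P (D (i + 1))) ⊔ LinearMap.range (act P (D i))

variable (D) in
/-- There is a finite family of cocycles, indexed by `σ`, which is independent modulo
`𝔪 Z + B`. -/
def HasIndep (P : Type) [AddCommGroup P] [Module R P] (i : ℕ) (σ : Type) [Fintype σ] : Prop :=
  ∃ y : σ → Fin (n (i + 1)) → P, (∀ s, act P (D (i + 1)) (y s) = 0) ∧
    ∀ r : σ → R, ∑ s, r s • y s ∈ T D P i → ∀ s, r s ∈ IsLocalRing.maximalIdeal R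

variable {P' Q P : Type} [AddCommGroup P'] [Module R P'] [AddCommGroup Q] [Module R Q]
  [AddCommGroup P] [Module R P]

lemma T_map (f : P' →ₗ[R] P) {i : ℕ} {y : Fin (n (i + 1)) → P'} (hy : y ∈ T D P' i) :
    (fun b => f (y b)) ∈ T D P i := by
  obtain ⟨y₁, h₁, y₂, h₂, rfl⟩ := Submodule.mem_sup.mp hy
  have hA : (fun b => f (y₁ b)) ∈ T D P i := by
    refine Submodule.smul_induction_on (p := fun y => (fun b => f (y b)) ∈ T D P i) h₁ ?_ ?_
    · intro r hr z hz
      refine Submodule.mem_sup_left ?_
      have h1 : (fun b => f ((r • z) b)) = r • fun b => f (z b) := by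
        funext b
        simp
      rw [h1]
      refine Submodule.smul_mem_smul hr ?_
      rw [LinearMap.mem_ker, act_map f, LinearMap.mem_ker.mp hz]
      funext a
      simp
    · intro z z' hz hz'
      have h1 : (fun b => f ((z + z') b)) = (fun b => f (z b)) + fun b => f (z' b) := by
        funext b
        simp
      rw [h1]
      exact Submodule.add_mem _ hz hz'
  have hB : (fun b => f (y₂ b)) ∈ T D P i := by
    obtain ⟨w, rfl⟩ := LinearMap.mem_range.mp h₂
    exact Submodule.mem_sup_right ⟨fun b => f (w b), act_map f _ _⟩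
  have h1 : (fun b => f ((y₁ + y₂) b)) = (fun b => f (y₁ b)) + fun b => f (y₂ b) := by
    funext b
    simp
  rw [h1]
  exact Submodule.add_mem _ hA hB

/-- shift along a short exact sequence whose middle term has an exact complex -/
lemma SES.hasIndep {f : P' →ₗ[R] Q} {g : Q →ₗ[R] P} (h : SES f g)
    (hD : ∀ i, D (i + 1) * D i = 0) {i : ℕ} (hQ : Ex Q (D (i + 2)) (D (i + 1)))
    {σ : Type} [Fintype σ] (hz : HasIndep D P' (i + 1) σ) : HasIndep D P i σ := by
  obtain ⟨z, hz1, hz2⟩ := hz
  have hq : ∀ t, ∃ q : Fin (n (i + 1)) → Q, (fun b => f (z t b)) = act Q (D (i + 1)) q := by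
    intro t
    refine hQ _ ?_
    rw [act_map f, hz1]
    funext a
    simp
  choose q hq using hq
  refine ⟨fun t b => g (q t b), fun t => ?_, fun r hr => hz2 r ?_⟩
  · rw [act_map g, ← hq]
    funext b
    exact h.gf _
  · -- the connecting map preserves `T`
    have key : ∀ (u : Fin (n (i + 1)) → Q) (p : Fin (n (i + 2)) → P'),
        (fun b => f (p b)) = act Q (D (i + 1)) u → (fun b => g (u b)) ∈ T D P i →
        p ∈ T D P' (i + 1) := by
      -- it suffices to find one representative
      have key1 : ∀ y ∈ T D P i, ∃ (u : Fin (n (i + 1)) → Q) (p : Fin (n (i + 2)) → P'),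
          (fun b => f (p b)) = act Q (D (i + 1)) u ∧ (fun b => g (u b)) = y ∧
            p ∈ T D P' (i + 1) := by
        intro y hy
        obtain ⟨y₁, h₁, y₂, h₂, rfl⟩ := Submodule.mem_sup.mp hy
        have hA : ∃ (u : Fin (n (i + 1)) → Q) (p : Fin (n (i + 2)) → P'),
            (fun b => f (p b)) = act Q (D (i + 1)) u ∧ (fun b => g (u b)) = y₁ ∧
            p ∈ T D P' (i + 1) := by
          refine Submodule.smul_induction_on (p := fun y => ∃ (u : Fin (n (i + 1)) → Q)
            (p : Fin (n (i + 2)) → P'), (fun b => f (p b)) = act Q (D (i + 1)) u ∧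
            (fun b => g (u b)) = y ∧ p ∈ T D P' (i + 1)) h₁ ?_ ?_
          · intro r hr z hz
            obtain ⟨u, rfl⟩ := h.lift z
            obtain ⟨p, hp⟩ := h.pull (act Q (D (i + 1)) u) (by
              rw [← act_map g]
              exact LinearMap.mem_ker.mp hz)
            refine ⟨r • u, r • p, ?_, ?_, ?_⟩
            · rw [map_smul, ← hp]
              funext b
              simp
            · funext b
              simp
            · refine Submodule.mem_sup_left (Submodule.smul_mem_smul hr ?_)
              rw [LinearMap.mem_ker]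
              apply h.inj'
              rw [← act_map f, hp, act_act_zero (hD _)]
              funext a
              simp
          · rintro z z' ⟨u, p, hp, rfl, hpT⟩ ⟨u', p', hp', rfl, hpT'⟩
            refine ⟨u + u', p + p', ?_, ?_, Submodule.add_mem _ hpT hpT'⟩
            · rw [map_add, ← hp, ← hp']
              funext b
              simp
            · funext b
              simp
        obtain ⟨u, p, hp, rfl, hpT⟩ := hA
        obtain ⟨w, rfl⟩ := LinearMap.mem_range.mp h₂
        obtain ⟨x, rfl⟩ := h.lift w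
        refine ⟨u + act Q (D i) x, p, ?_, ?_, hpT⟩
        · rw [map_add, act_act_zero (hD _), add_zero, hp]
        · rw [act_map g]
          funext b
          simp
      intro u p hp hu
      obtain ⟨u', p', hp', hgu, hpT'⟩ := key1 _ hu
      obtain ⟨x, hx⟩ := h.pull (u - u') (by
        funext b
        have := congrFun hgu b
        simp only [Pi.sub_apply, map_sub, Pi.zero_apply, this, sub_self])
      have h1 : p = p' + act P' (D (i + 1)) x := by
        apply h.inj'
        have h2 : (fun b => f ((p' + act P' (D (i + 1)) x) b))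
            = (fun b => f (p' b)) + fun b => f (act P' (D (i + 1)) x b) := by
          funext b
          simp
        rw [h2, ← act_map f (D (i + 1)) x, hx, map_sub, hp, hp']
        abel
      rw [h1]
      exact Submodule.add_mem _ hpT' (Submodule.mem_sup_right ⟨x, rfl⟩)
    refine key (∑ s, r s • q s) _ ?_ ?_
    · have h1 : (fun b => f ((∑ s, r s • z s) b)) = ∑ s, r s • fun b => f (z s b) := by
        funext b
        simp [Finset.sum_apply]
      rw [h1, map_sum]
      refine Finset.sum_congr rfl fun s _ => ?_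
      rw [map_smul, hq]
    · have h1 : (fun b => g ((∑ s, r s • q s) b)) = ∑ s, r s • fun b => g (q s b) := by
        funext b
        simp [Finset.sum_apply]
      rw [h1]
      exact hr

/-- the shift in the other direction -/
lemma SES.hasIndep_rev {f : P' →ₗ[R] Q} {g : Q →ₗ[R] P} (h : SES f g)
    (hD : ∀ i, D (i + 1) * D i = 0) {i : ℕ} (hQ : Ex Q (D (i + 2)) (D (i + 1)))
    (hQ' : Ex Q (D (i + 1)) (D i))
    {σ : Type} [Fintype σ] (hz : HasIndep D P i σ) : HasIndep D P' (i + 1) σ := by
  obtain ⟨y, hy1, hy2⟩ := hz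
  choose q hq using fun s => h.lift (y s)
  have hp : ∀ s, ∃ p : Fin (n (i + 2)) → P', (fun b => f (p b)) = act Q (D (i + 1)) (q s) := by
    intro s
    refine h.pull _ ?_
    rw [← act_map g, hq]
    exact hy1 s
  choose p hp using hp
  refine ⟨p, fun s => ?_, fun r hr => hy2 r ?_⟩
  · apply h.inj'
    rw [← act_map f, hp, act_act_zero (hD _)]
    funext a
    simp
  · -- one representative
    have key1 : ∀ x ∈ T D P' (i + 1), ∃ (u : Fin (n (i + 1)) → Q),
        (fun b => f (x b)) = act Q (D (i + 1)) u ∧ (fun b => g (u b)) ∈ T D P i := by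
      intro x hx
      obtain ⟨x₁, h₁, x₂, h₂, rfl⟩ := Submodule.mem_sup.mp hx
      have hA : ∃ (u : Fin (n (i + 1)) → Q),
          (fun b => f (x₁ b)) = act Q (D (i + 1)) u ∧ (fun b => g (u b)) ∈ T D P i := by
        refine Submodule.smul_induction_on (p := fun x => ∃ (u : Fin (n (i + 1)) → Q),
          (fun b => f (x b)) = act Q (D (i + 1)) u ∧ (fun b => g (u b)) ∈ T D P i) h₁ ?_ ?_
        · intro r hr z hz
          obtain ⟨u, hu⟩ := hQ (fun b => f (z b)) (by
            rw [act_map f, LinearMap.mem_ker.mp hz]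
            funext a
            simp)
          refine ⟨r • u, ?_, ?_⟩
          · rw [map_smul, ← hu]
            funext b
            simp
          · have h1 : (fun b => g ((r • u) b)) = r • fun b => g (u b) := by
              funext b
              simp
            rw [h1]
            refine Submodule.mem_sup_left (Submodule.smul_mem_smul hr ?_)
            rw [LinearMap.mem_ker, act_map g, ← hu]
            funext b
            exact h.gf _
        · rintro z z' ⟨u, hu, huT⟩ ⟨u', hu', huT'⟩
          refine ⟨u + u', ?_, ?_⟩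
          · rw [map_add, ← hu, ← hu']
            funext b
            simp
          · have h1 : (fun b => g ((u + u') b)) = (fun b => g (u b)) + fun b => g (u' b) := by
              funext b
              simp
            rw [h1]
            exact Submodule.add_mem _ huT huT'
      obtain ⟨u, hu, huT⟩ := hA
      obtain ⟨w, rfl⟩ := LinearMap.mem_range.mp h₂
      refine ⟨u + fun b => f (w b), ?_, ?_⟩
      · rw [map_add, act_map f, ← hu]
        funext b
        simp
      · have h1 : (fun b => g ((u + fun b => f (w b)) b)) = fun b => g (u b) := by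
          funext b
          simp [h.gf]
        rw [h1]
        exact huT
    obtain ⟨u, hu, huT⟩ := key1 _ hr
    have h1 : act Q (D (i + 1)) ((∑ s, r s • q s) - u) = 0 := by
      rw [map_sub, ← hu, map_sum, sub_eq_zero]
      have h2 : (fun b => f ((∑ s, r s • p s) b)) = ∑ s, r s • fun b => f (p s b) := by
        funext b
        simp [Finset.sum_apply]
      rw [h2]
      refine Finset.sum_congr rfl fun s _ => ?_
      rw [map_smul, hp]
    obtain ⟨w, hw⟩ := hQ' _ h1
    have h3 : ∑ s, r s • y s = (fun b => g (u b)) + act P (D i) (fun b => g (w b)) := by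
      rw [act_map g, ← hw]
      funext b
      simp only [Finset.sum_apply, Pi.smul_apply, Pi.add_apply, Pi.sub_apply, map_sub, map_sum,
        map_smul, add_sub_cancel]
      refine Finset.sum_congr rfl fun s _ => ?_
      rw [← hq s]
    rw [h3]
    exact Submodule.add_mem _ huT (Submodule.mem_sup_right ⟨_, rfl⟩)

lemma Retr.hasIndep {P₁ P₂ X : Type} [AddCommGroup P₁] [Module R P₁]
    [AddCommGroup P₂] [Module R P₂] [AddCommGroup X] [Module R X] (h : Retr R P₁ P₂ X) {i : ℕ}
    {σ₁ σ₂ : Type} [Fintype σ₁] [Fintype σ₂]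
    (h₁ : HasIndep D P₁ i σ₁) (h₂ : HasIndep D P₂ i σ₂) : HasIndep D X i (σ₁ ⊕ σ₂) := by
  obtain ⟨ι₁, ι₂, ρ₁, ρ₂, h11, h22, h12, h21⟩ := h
  obtain ⟨z, hz1, hz2⟩ := h₁
  obtain ⟨y, hy1, hy2⟩ := h₂
  refine ⟨Sum.elim (fun s c => ι₁ (z s c)) (fun s c => ι₂ (y s c)), ?_, ?_⟩
  · rintro (s | s)
    · rw [Sum.elim_inl, act_map ι₁, hz1]
      funext a
      simp
    · rw [Sum.elim_inr, act_map ι₂, hy1]
      funext a
      simp
  · intro r hr
    rw [Fintype.sum_sum_type] at hr
    simp only [Sum.elim_inl, Sum.elim_inr] at hr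
    rintro (s | s)
    · refine hz2 (fun s => r (Sum.inl s)) ?_ s
      have h1 := T_map (D := D) ρ₁ hr
      have h2 : (fun c => ρ₁ ((∑ s, r (Sum.inl s) • (fun c => ι₁ (z s c)) +
          ∑ s, r (Sum.inr s) • (fun c => ι₂ (y s c)) : Fin (n (i + 1)) → X) c))
          = ∑ s, r (Sum.inl s) • z s := by
        funext c
        simp [Finset.sum_apply, h11, h12]
      rw [h2] at h1
      exact h1
    · refine hy2 (fun s => r (Sum.inr s)) ?_ s
      have h1 := T_map (D := D) ρ₂ hr
      have h2 : (fun c => ρ₂ ((∑ s, r (Sum.inl s) • (fun c => ι₁ (z s c)) +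
          ∑ s, r (Sum.inr s) • (fun c => ι₂ (y s c)) : Fin (n (i + 1)) → X) c))
          = ∑ s, r (Sum.inr s) • y s := by
        funext c
        simp [Finset.sum_apply, h22, h21]
      rw [h2] at h1
      exact h1

variable [IsNoetherianRing R] [Module.Finite R P]

/-- the size of an independent family is bounded -/
lemma indep_card {i : ℕ} {σ : Type} [Fintype σ] (hy : HasIndep D P i σ) :
    Fintype.card σ ≤ Module.finrank (R ⧸ IsLocalRing.maximalIdeal R)
      (LinearMap.ker (act P (D (i + 1))) ⧸
        (IsLocalRing.maximalIdeal R • ⊤ : Submodule R (LinearMap.ker (act P (D (i + 1)))))) := by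
  letI : Field (R ⧸ IsLocalRing.maximalIdeal R) := Ideal.Quotient.field _
  obtain ⟨y, hy⟩ := hy
  set Z := LinearMap.ker (act P (D (i + 1))) with hZ
  have hfin : Module.Finite (R ⧸ IsLocalRing.maximalIdeal R)
      (Z ⧸ (IsLocalRing.maximalIdeal R • ⊤ : Submodule R Z)) :=
    Module.Finite.of_restrictScalars_finite R _ _
  let yZ : σ → Z := fun s => ⟨y s, hy.1 s⟩
  have hli : LinearIndependent (R ⧸ IsLocalRing.maximalIdeal R)
      (fun s => (Submodule.Quotient.mk (yZ s) :
        Z ⧸ (IsLocalRing.maximalIdeal R • ⊤ : Submodule R Z))) := by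
    rw [Fintype.linearIndependent_iff]
    intro g hg s
    choose r hr using fun s => Ideal.Quotient.mk_surjective (g s)
    have h1 : (Submodule.Quotient.mk (∑ s, r s • yZ s) :
        Z ⧸ (IsLocalRing.maximalIdeal R • ⊤ : Submodule R Z)) = 0 := by
      rw [← hg, ← Submodule.mkQ_apply, map_sum]
      refine Finset.sum_congr rfl fun s _ => ?_
      rw [← hr s]
      rfl
    rw [Submodule.Quotient.mk_eq_zero] at h1
    have h2 : ∑ s, r s • y s ∈ IsLocalRing.maximalIdeal R • Z := by
      have h3 : Z.subtype (∑ s, r s • yZ s) ∈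
          (IsLocalRing.maximalIdeal R • ⊤ : Submodule R Z).map Z.subtype :=
        Submodule.mem_map_of_mem h1
      rw [Submodule.map_smul'', Submodule.map_top, Submodule.range_subtype] at h3
      simpa [yZ] using h3
    have h4 := hy.2 r (Submodule.mem_sup_left h2) s
    rw [← hr s, Ideal.Quotient.eq_zero_iff_mem]
    exact h4
  exact hli.fintype_card_le_finrank

/-- non-exactness gives one independent cocycle -/
lemma exists_indep {i : ℕ} (h : ¬ Ex P (D (i + 1)) (D i)) : HasIndep D P i Unit := by
  by_contra hcon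
  apply h
  set Z := LinearMap.ker (act P (D (i + 1))) with hZ
  have h1 : ∀ v ∈ Z, v ∈ T D P i := by
    intro v hv
    by_contra hvT
    refine hcon ⟨fun _ => v, fun _ => hv, fun r hr s => ?_⟩
    by_contra hu
    have hunit : IsUnit (r s) := by
      by_contra hn
      exact hu ((IsLocalRing.mem_maximalIdeal _).mpr hn)
    obtain ⟨u, hu'⟩ := hunit
    have h2 : r s • v ∈ T D P i := by simpa using hr
    apply hvT
    have h3 := (T D P i).smul_mem (↑(u⁻¹) : R) h2
    rwa [← hu', smul_smul, Units.inv_mul, one_smul] at h3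
  have hZfg : Z.FG := IsNoetherian.noetherian Z
  have h2 : Z ≤ IsLocalRing.maximalIdeal R • Z ⊔ LinearMap.range (act P (D i)) := h1
  intro v hv
  have h3 : Z ≤ LinearMap.range (act P (D i)) := by
    have h4 : IsLocalRing.maximalIdeal R ≤ Ideal.jacobson ⊥ := by
      rw [IsLocalRing.jacobson_eq_maximalIdeal _ bot_ne_top]
    rw [sup_comm] at h2
    exact Submodule.le_of_le_smul_of_le_jacobson_bot hZfg h4 h2
  obtain ⟨w, hw⟩ := h3 hv
  exact ⟨w, hw.symm⟩

end steps

/-- `P'` is obtained from `P` by `k` shifts along short exact sequences whose middle terms have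
exact complexes. -/
inductive Chain (D : ∀ i, Matrix (Fin (n (i + 1))) (Fin (n i)) R) (P' : Type) [AddCommGroup P']
    [Module R P'] : ℕ → ∀ (P : Type) [AddCommGroup P] [Module R P], Prop
  | nil (P : Type) [AddCommGroup P] [Module R P] (e : P ≃ₗ[R] P') : Chain D P' 0 P
  | cons (k : ℕ) (P₁ Q P : Type) [AddCommGroup P₁] [Module R P₁] [AddCommGroup Q] [Module R Q]
      [AddCommGroup P] [Module R P] (f : P₁ →ₗ[R] Q) (g : Q →ₗ[R] P) (h : SES f g)
      (hQ : ExactFrom1 Q D) (hc : Chain D P' k P₁) : Chain D P' (k + 1) P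

lemma HasIndep.of_equiv [IsLocalRing R] {P P' : Type} [AddCommGroup P] [Module R P]
    [AddCommGroup P'] [Module R P'] (e : P ≃ₗ[R] P') {i : ℕ} {σ : Type} [Fintype σ]
    (hz : HasIndep D P' i σ) : HasIndep D P i σ := by
  obtain ⟨z, hz1, hz2⟩ := hz
  refine ⟨fun s c => e.symm (z s c), fun s => ?_, fun r hr => hz2 r ?_⟩
  · have h1 := act_map e.symm.toLinearMap (D (i + 1)) (z s)
    rw [hz1] at h1
    exact h1.trans (by funext a; simp)
  · have h1 := T_map (D := D) e.toLinearMap hr
    have h2 : (fun b => e.toLinearMap ((∑ s, r s • fun c => e.symm (z s c)) b))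
        = ∑ s, r s • z s := by
      funext b
      simp [Finset.sum_apply]
    rw [h2] at h1
    exact h1

lemma Chain.hasIndep [IsLocalRing R] (hD : ∀ i, D (i + 1) * D i = 0) {P P' : Type}
    [AddCommGroup P] [Module R P]
    [AddCommGroup P'] [Module R P'] {k : ℕ} (h : Chain D P' k P) :
    ∀ (i j : ℕ), j = i + k → ∀ {σ : Type} [Fintype σ], HasIndep D P' j σ → HasIndep D P i σ := by
  induction h with
  | nil P e =>
    rintro i j rfl σ _ hz
    exact hz.of_equiv e
  | cons k P₁ Q P f g h hQ hc ih =>
    intro i j hj σ _ hz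
    exact h.hasIndep hD (hQ (i + 1)) (ih (i + 1) j (by omega) hz)

lemma Chain.hasIndep_rev [IsLocalRing R] (hD : ∀ i, D (i + 1) * D i = 0) {P P' : Type}
    [AddCommGroup P] [Module R P]
    [AddCommGroup P'] [Module R P'] {k : ℕ} (h : Chain D P' k P) :
    ∀ (i j : ℕ), j = i + k → ∀ {σ : Type} [Fintype σ], HasIndep D P i σ → HasIndep D P' j σ := by
  induction h with
  | nil P e =>
    rintro i j rfl σ _ hz
    exact hz.of_equiv e.symm
  | cons k P₁ Q P f g h hQ hc ih =>
    intro i j hj σ _ hz
    exact ih (i + 1) j (by omega) (h.hasIndep_rev hD (hQ (i + 1)) (hQ i) hz)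

lemma Chain.ex (hD : ∀ i, D (i + 1) * D i = 0) {P P' : Type} [AddCommGroup P] [Module R P]
    [AddCommGroup P'] [Module R P'] {k : ℕ} (h : Chain D P' k P) :
    ∀ (i j : ℕ), j = i + k → Ex P' (D (j + 1)) (D j) → Ex P (D (i + 1)) (D i) := by
  induction h with
  | nil P e =>
    rintro i j rfl hz
    exact Ex.of_equiv e.symm hz
  | cons k P₁ Q P f g h hQ hc ih =>
    intro i j hj hz
    exact h.ex_right (hD (i + 1)) (ih (i + 1) j (by omega) hz) (hQ i)

/-- there is an independent family of a given size -/
def HI (D : ∀ i, Matrix (Fin (n (i + 1))) (Fin (n i)) R) [IsLocalRing R] (P : Type)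
    [AddCommGroup P] [Module R P] (i c : ℕ) : Prop :=
  ∃ (σ : Type) (_ : Fintype σ), Fintype.card σ = c ∧ HasIndep D P i σ

/-- The growth theorem. -/
theorem grow [IsLocalRing R] [IsNoetherianRing R] (hD : ∀ i, D (i + 1) * D i = 0)
    {P P₁ P₂ P' : Type} [AddCommGroup P] [Module R P] [AddCommGroup P₁] [Module R P₁]
    [AddCommGroup P₂] [Module R P₂] [AddCommGroup P'] [Module R P'] [Module.Finite R P]
    {k k₁ k₂ : ℕ} (hk₁ : k₁ < k) (hk₂ : k₂ < k) (h : Chain D P' k P) (h₁ : Chain D P₁ k₁ P)
    (h₂ : Chain D P₂ k₂ P) (hr : Retr R P₁ P₂ P') (hf : Filt R P P') : ExactFrom1 P D := by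
  obtain ⟨a, ha⟩ : ∃ a, k = k₁ + (a + 1) := ⟨k - k₁ - 1, by omega⟩
  obtain ⟨b, hb⟩ : ∃ b, k = k₂ + (b + 1) := ⟨k - k₂ - 1, by omega⟩
  have h0 : ∀ l, HI D P l 0 := fun l =>
    ⟨Empty, inferInstance, by simp, fun s => s.elim, fun s => s.elim, fun _ _ s => s.elim⟩
  have hs : ∀ l c c', HI D P (l + (a + 1)) c → HI D P (l + (b + 1)) c' → HI D P l (c + c') := by
    rintro l c c' ⟨σ, _, rfl, hσ⟩ ⟨τ, _, rfl, hτ⟩
    refine ⟨σ ⊕ τ, inferInstance, by simp, ?_⟩
    refine h.hasIndep hD l (l + k) rfl (hr.hasIndep ?_ ?_)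
    · exact h₁.hasIndep_rev hD (l + (a + 1)) (l + k) (by omega) hσ
    · exact h₂.hasIndep_rev hD (l + (b + 1)) (l + k) (by omega) hτ
  have ha' : ∀ t l c, HI D P (l + t * (a + 1)) c → HI D P l c := by
    intro t
    induction t with
    | zero =>
      intro l c hc
      simpa using hc
    | succ t ih =>
      intro l c hc
      have := hs l c 0 (ih (l + (a + 1)) c (by
        have e : l + (a + 1) + t * (a + 1) = l + (t + 1) * (a + 1) := by ring
        rw [e]
        exact hc)) (h0 _)
      simpa using this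
  have hb' : ∀ t l c, HI D P (l + t * (b + 1)) c → HI D P l c := by
    intro t
    induction t with
    | zero =>
      intro l c hc
      simpa using hc
    | succ t ih =>
      intro l c hc
      have := hs l 0 c (h0 _) (ih (l + (b + 1)) c (by
        have e : l + (b + 1) + t * (b + 1) = l + (t + 1) * (b + 1) := by ring
        rw [e]
        exact hc))
      simpa using this
  -- doubling
  set m := (a + 1) * (b + 1) with hm
  have hmpos : 0 < m := by positivity
  have hdouble : ∀ l c, HI D P (l + m) c → HI D P l (c + c) := by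
    intro l c hc
    refine hs l c c (ha' b _ c ?_) (hb' a _ c ?_)
    · have e : l + (a + 1) + b * (a + 1) = l + m := by rw [hm]; ring
      rw [e]
      exact hc
    · have e : l + (b + 1) + a * (b + 1) = l + m := by rw [hm]; ring
      rw [e]
      exact hc
  have h1 : ∀ (t i : ℕ), HI D P (i + t * m) 1 → HI D P i (2 ^ t) := by
    intro t
    induction t with
    | zero =>
      intro i hz
      simpa using hz
    | succ t ih =>
      intro i hz
      have h3 := hdouble i (2 ^ t) (ih (i + m) (by
        have e : i + m + t * m = i + (t + 1) * m := by ring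
        rw [e]
        exact hz))
      have e : 2 ^ (t + 1) = 2 ^ t + 2 ^ t := by ring
      rw [e]
      exact h3
  have h2 : ∀ i : ℕ, ∃ L : ℕ, ∀ l ≥ L, Ex P (D (i + l * m + 1)) (D (i + l * m)) := by
    intro i
    set N := Module.finrank (R ⧸ IsLocalRing.maximalIdeal R)
      (LinearMap.ker (act P (D (i + 1))) ⧸
        (IsLocalRing.maximalIdeal R • ⊤ : Submodule R (LinearMap.ker (act P (D (i + 1)))))) with hN
    refine ⟨N, fun l hl => ?_⟩
    by_contra hne
    obtain ⟨σ, hσ, hc, hy⟩ := h1 l i ⟨Unit, inferInstance, by simp, exists_indep hne⟩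
    have h2 := indep_card hy
    rw [hc, ← hN] at h2
    have h3 : N < 2 ^ l :=
      (Nat.lt_two_pow_self).trans_le (Nat.pow_le_pow_right (by omega) hl)
    omega
  choose L hL using h2
  set L' := (Finset.range m).sup L with hL'
  have h3 : ∀ j ≥ m * L', Ex P (D (j + 1)) (D j) := by
    intro j hj
    have h4 : j % m < m := Nat.mod_lt _ hmpos
    have h5 : L (j % m) ≤ L' := Finset.le_sup (f := L) (Finset.mem_range.mpr h4)
    have h6 : L' ≤ j / m := (Nat.le_div_iff_mul_le hmpos).mpr (by rw [mul_comm]; exact hj)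
    have h7 := hL (j % m) (j / m) (h5.trans h6)
    have h8 : j % m + j / m * m = j := by
      rw [mul_comm]
      exact Nat.mod_add_div j m
    rwa [h8] at h7
  have h4 : ∀ t j : ℕ, m * L' ≤ j + t * k → Ex P (D (j + 1)) (D j) := by
    intro t
    induction t with
    | zero =>
      intro j hj
      exact h3 j (by simpa using hj)
    | succ t ih =>
      intro j hj
      refine h.ex hD j (j + k) rfl ?_
      exact hf.ex (hD _) (ih (j + k) (by rw [add_assoc]; convert hj using 1; ring))
  intro i
  refine h4 (m * L') i ?_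
  have hk : 1 ≤ k := by omega
  calc m * L' = m * L' * 1 := by ring
    _ ≤ m * L' * k := Nat.mul_le_mul_left _ hk
    _ ≤ i + m * L' * k := Nat.le_add_left _ _

end Pool.Agent.Helper35.ARC2
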