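import Pool.Agent.Helper35.ARC2.Cok
import Pool.Agent.Helper35.AR.Bridge
import Pool.Agent.Helper35.AR.MinCov

set_option autoImplicit false

/-!
# Free resolutions by matrices and Ext groups
-/

open CategoryTheory Abelian

namespace Pool.Agent.Helper35.ARC2

open Pool.Agent.Helper35.AR

variable {R : Type} [CommRing R]

/-- A submodule of a finite free module is the range of a matrix. -/
theorem exists_matrix [IsNoetherianRing R] {c : ℕ} (K : Submodule R (Fin c → R)) :
    ∃ (e : ℕ) (A : Matrix (Fin c) (Fin e) R), LinearMap.range (act R A) = K := by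
  obtain ⟨e, s, hs⟩ := (Submodule.fg_iff_exists_fin_generating_family).mp
    (IsNoetherian.noetherian K)
  refine ⟨e, Matrix.of fun a b => s b a, ?_⟩
  apply le_antisymm
  · rintro _ ⟨v, rfl⟩
    have h1 : act R (Matrix.of fun a b => s b a) v = ∑ b, v b • s b := by
      funext a
      simp [act_apply, mul_comm]
    rw [h1]
    refine Submodule.sum_mem _ fun b _ => Submodule.smul_mem _ _ ?_
    rw [← hs]
    exact Submodule.subset_span ⟨b, rfl⟩
  · rw [← hs, Submodule.span_le]
    rintro _ ⟨b, rfl⟩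
    refine ⟨Pi.single b 1, ?_⟩
    funext a
    simp [act_apply, Pi.single_apply]

/-- A free resolution given by matrices, starting from a submodule. -/
theorem exists_res [IsNoetherianRing R] {c : ℕ} (K : Submodule R (Fin c → R)) :
    ∃ (n : ℕ → ℕ) (hn : n 0 = c) (d : ∀ i, Matrix (Fin (n i)) (Fin (n (i + 1))) R),
      (∀ v : Fin (n 0) → R, v ∈ LinearMap.range (act R (d 0)) ↔ (v ∘ Fin.cast hn.symm) ∈ K) ∧
      ∀ i, LinearMap.range (act R (d (i + 1))) = LinearMap.ker (act R (d i)) := by
  choose e A hA using fun (x : Σ c : ℕ, Submodule R (Fin c → R)) => exists_matrix x.2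
  let st : ℕ → Σ c : ℕ, Submodule R (Fin c → R) := fun i =>
    Nat.rec ⟨c, K⟩ (fun _ x => ⟨e x, LinearMap.ker (act R (A x))⟩) i
  refine ⟨fun i => (st i).1, rfl, fun i => A (st i), fun v => ?_, fun i => ?_⟩
  · rw [hA (st 0)]
    rfl
  · exact hA (st (i + 1))

theorem exists_res_module [IsNoetherianRing R] [IsLocalRing R] (M : Type) [AddCommGroup M]
    [Module R M] [Module.Finite R M] :
    ∃ (n : ℕ → ℕ) (d : ∀ i, Matrix (Fin (n i)) (Fin (n (i + 1))) R)
      (π : (Fin (n 0) → R) →ₗ[R] M), MinCov π ∧ LinearMap.range (act R (d 0)) = LinearMap.ker π ∧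
      ∀ i, LinearMap.range (act R (d (i + 1))) = LinearMap.ker (act R (d i)) := by
  obtain ⟨c, π, hπ⟩ := exists_minCov (A := R) M
  obtain ⟨n, hn, d, h0, hd⟩ := exists_res (LinearMap.ker π)
  subst hn
  refine ⟨n, d, π, hπ, ?_, hd⟩
  ext v
  exact h0 v

section linear

variable {X : Type} [AddCommGroup X] [Module R X] {p q r : ℕ}

/-- the linear combination map -/
def lin (v : Fin q → X) : (Fin q → R) →ₗ[R] X := Fintype.linearCombination R v

lemma lin_apply (v : Fin q → X) (u : Fin q → R) : lin v u = ∑ b, u b • v b :=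
  Fintype.linearCombination_apply R v u

lemma lin_single (v : Fin q → X) (b : Fin q) : lin (R := R) v (Pi.single b 1) = v b := by
  rw [lin_apply]
  simp [Pi.single_apply]

lemma lin_act (A : Matrix (Fin p) (Fin q) R) (v : Fin p → X) (u : Fin q → R) :
    lin v (act R A u) = lin (act X A.transpose v) u := by
  simp only [lin_apply, act_apply, Matrix.transpose_apply, smul_eq_mul, Finset.sum_smul,
    Finset.smul_sum, smul_smul]
  rw [Finset.sum_comm]
  refine Finset.sum_congr rfl fun b _ => Finset.sum_congr rfl fun a _ => ?_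
  rw [mul_comm]

lemma lin_injective {v w : Fin q → X} (h : lin (R := R) v = lin w) : v = w := by
  funext b
  rw [← lin_single (R := R) v b, h, lin_single]

lemma eq_lin (φ : (Fin q → R) →ₗ[R] X) : φ = lin fun b => φ (Pi.single b 1) := by
  refine LinearMap.pi_ext' fun b => ?_
  apply LinearMap.ext_ring
  simp [lin_single]

/-- If a map on a finite free module kills the kernel of a matrix then it factors through its
range. -/
lemma exists_factor (A : Matrix (Fin p) (Fin q) R) (φ : (Fin q → R) →ₗ[R] X)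
    (h : LinearMap.ker (act R A) ≤ LinearMap.ker φ) :
    ∃ f : LinearMap.range (act R A) →ₗ[R] X, ∀ u, f ⟨act R A u, LinearMap.mem_range_self _ u⟩ = φ u := by
  refine ⟨((LinearMap.ker (act R A)).liftQ φ h).comp
    (LinearMap.quotKerEquivRange (act R A)).symm.toLinearMap, fun u => ?_⟩
  rw [LinearMap.comp_apply, LinearEquiv.coe_coe, LinearMap.quotKerEquivRange_symm_apply_image]
  rfl

/-- Exactness of the dual complex is equivalent to the extension property. -/
lemma ex_of_extend {A : Matrix (Fin p) (Fin q) R} {B : Matrix (Fin q) (Fin r) R}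
    (hAB : LinearMap.range (act R B) = LinearMap.ker (act R A))
    (h : ∀ f : LinearMap.range (act R A) →ₗ[R] X, ∃ g : (Fin p → R) →ₗ[R] X,
      ∀ v : LinearMap.range (act R A), g v = f v) : Ex X B.transpose A.transpose := by
  intro v hv
  obtain ⟨f, hf⟩ := exists_factor A (lin v) (by
    rw [← hAB]
    rintro _ ⟨u, rfl⟩
    rw [LinearMap.mem_ker, lin_act, hv, lin_apply]
    simp)
  obtain ⟨g, hg⟩ := h f
  refine ⟨fun a => g (Pi.single a 1), lin_injective (R := R) ?_⟩
  apply LinearMap.ext
  intro u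
  rw [← lin_act, ← eq_lin g, ← hf u]
  exact (hg ⟨act R A u, LinearMap.mem_range_self _ u⟩).symm

lemma extend_of_ex {A : Matrix (Fin p) (Fin q) R} {B : Matrix (Fin q) (Fin r) R}
    (hAB : LinearMap.range (act R B) = LinearMap.ker (act R A))
    (h : Ex X B.transpose A.transpose) (f : LinearMap.range (act R A) →ₗ[R] X) :
    ∃ g : (Fin p → R) →ₗ[R] X, ∀ v : LinearMap.range (act R A), g v = f v := by
  set φ : (Fin q → R) →ₗ[R] X := f.comp (act R A).rangeRestrict with hφ
  obtain ⟨w, hw⟩ := h (fun b => φ (Pi.single b 1)) (by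
    apply lin_injective (R := R)
    apply LinearMap.ext
    intro u
    rw [← lin_act, ← eq_lin φ, lin_apply]
    have h1 : act R B u ∈ LinearMap.ker (act R A) := by
      rw [← hAB]
      exact ⟨u, rfl⟩
    have h2 : (act R A).rangeRestrict (act R B u) = 0 := by
      apply Subtype.ext
      exact LinearMap.mem_ker.mp h1
    rw [hφ, LinearMap.comp_apply, h2, map_zero]
    simp)
  refine ⟨lin w, ?_⟩
  rintro ⟨_, u, rfl⟩
  rw [lin_act, ← hw, ← eq_lin φ]
  rfl

end linear

section ext

variable [HasExt.{0} (ModuleCat.{0} R)]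
variable {F Y X : Type} [AddCommGroup F] [Module R F] [AddCommGroup Y] [Module R Y]
  [AddCommGroup X] [Module R X]

lemma ext_step (π : F →ₗ[R] Y) (hπ : Function.Surjective π) [Module.Projective R F]
    (L : Submodule R F) (hL : L = LinearMap.ker π)
    (h : ∀ j : ℕ, 0 < j → Subsingleton (Ext (ModuleCat.of R Y) (ModuleCat.of R X) j)) :
    (∀ j : ℕ, 0 < j → Subsingleton (Ext (ModuleCat.of R L) (ModuleCat.of R X) j)) ∧
    (∀ f : L →ₗ[R] X, ∃ g : F →ₗ[R] X, ∀ v : L, g v = f v) := by
  subst hL
  refine ⟨fun j hj => ?_, fun f => extend_of_ext_one π hπ (h 1 one_pos) f⟩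
  obtain ⟨j, rfl⟩ : ∃ i, j = i + 1 := ⟨j - 1, by omega⟩
  exact ext_ker π hπ j (h (j + 2) (by omega))

lemma ext_step_conv (π : F →ₗ[R] Y) (hπ : Function.Surjective π) [Module.Projective R F]
    (L : Submodule R F) (hL : L = LinearMap.ker π)
    (h : ∀ f : L →ₗ[R] X, ∃ g : F →ₗ[R] X, ∀ v : L, g v = f v) :
    Subsingleton (Ext (ModuleCat.of R Y) (ModuleCat.of R X) 1) ∧
    ∀ j : ℕ, Subsingleton (Ext (ModuleCat.of R L) (ModuleCat.of R X) (j + 1)) →
      Subsingleton (Ext (ModuleCat.of R Y) (ModuleCat.of R X) (j + 2)) := by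
  subst hL
  have hS := LinearMap.shortExact_shortComplexKer hπ
  have hproj : Projective (ModuleCat.of R F) :=
    (ModuleCat.of R F).projective_of_categoryTheory_projective
  refine ⟨subsingleton_of_forall_eq 0 fun x₃ => ?_, fun j hj =>
    subsingleton_of_forall_eq 0 fun x₃ => ?_⟩
  · obtain ⟨x₁, hx₁⟩ := Ext.contravariant_sequence_exact₃ hS (ModuleCat.of R X) x₃
      (Ext.eq_zero_of_projective (P := ModuleCat.of R F) _) (show 1 + 0 = 1 by omega)
    obtain ⟨f, rfl⟩ := (Ext.mk₀_bijective _ _).2 x₁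
    obtain ⟨g, hg⟩ := h f.hom
    have hf : f = ModuleCat.ofHom (LinearMap.ker π).subtype ≫ ModuleCat.ofHom g := by
      ext v
      exact (hg v).symm
    rw [← hx₁, hf, ← Ext.mk₀_comp_mk₀]
    rw [← Ext.comp_assoc_of_second_deg_zero]
    have h1 : hS.extClass.comp (Ext.mk₀ (ModuleCat.ofHom (LinearMap.ker π).subtype)) (add_zero 1) = 0 :=
      hS.extClass_comp
    rw [h1, Ext.zero_comp]
  · obtain ⟨x₁, hx₁⟩ := Ext.contravariant_sequence_exact₃ hS (ModuleCat.of R X) x₃
      (Ext.eq_zero_of_projective (P := ModuleCat.of R F) _) (show 1 + (j + 1) = j + 2 by omega)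
    have h1 : x₁ = 0 := Subsingleton.elim (α := Ext (ModuleCat.of R (LinearMap.ker π))
      (ModuleCat.of R X) (j + 1)) _ _
    rw [← hx₁, h1, Ext.comp_zero]

end ext

section res

variable [HasExt.{0} (ModuleCat.{0} R)]
variable {M X : Type} [AddCommGroup M] [Module R M] [AddCommGroup X] [Module R X]
  {n : ℕ → ℕ} {d : ∀ i, Matrix (Fin (n i)) (Fin (n (i + 1))) R}
  {π : (Fin (n 0) → R) →ₗ[R] M} (hπ : Function.Surjective π)
  (h0 : LinearMap.range (act R (d 0)) = LinearMap.ker π)
  (hd : ∀ i, LinearMap.range (act R (d (i + 1))) = LinearMap.ker (act R (d i)))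

include hπ h0 hd

theorem exact_of_ext
    (h : ∀ j : ℕ, 0 < j → Subsingleton (Ext (ModuleCat.of R M) (ModuleCat.of R X) j)) :
    ExactFrom1 X (fun i => (d i).transpose) := by
  have key : ∀ i, (∀ j : ℕ, 0 < j → Subsingleton (Ext (ModuleCat.of R
      (LinearMap.range (act R (d i)))) (ModuleCat.of R X) j)) ∧
      (∀ f : LinearMap.range (act R (d i)) →ₗ[R] X, ∃ g : (Fin (n i) → R) →ₗ[R] X,
        ∀ v : LinearMap.range (act R (d i)), g v = f v) := by
    intro i
    induction i with
    | zero => exact ext_step π hπ _ h0 h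
    | succ i ih =>
      refine ext_step (act R (d i)).rangeRestrict (LinearMap.surjective_rangeRestrict _) _ ?_ ih.1
      rw [LinearMap.ker_rangeRestrict]
      exact hd i
  exact fun i => ex_of_extend (hd i) (key i).2

theorem ext_of_exact (h : ExactFrom1 X (fun i => (d i).transpose)) :
    ∀ j : ℕ, 0 < j → Subsingleton (Ext (ModuleCat.of R M) (ModuleCat.of R X) j) := by
  have hE : ∀ (i : ℕ) (f : LinearMap.range (act R (d i)) →ₗ[R] X),
      ∃ g : (Fin (n i) → R) →ₗ[R] X, ∀ v : LinearMap.range (act R (d i)), g v = f v :=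
    fun i => extend_of_ex (hd i) (h i)
  have key : ∀ j i, Subsingleton (Ext (ModuleCat.of R
      (LinearMap.range (act R (d i)))) (ModuleCat.of R X) (j + 1)) := by
    intro j
    induction j with
    | zero =>
      intro i
      refine (ext_step_conv (act R (d i)).rangeRestrict (LinearMap.surjective_rangeRestrict _)
        (LinearMap.range (act R (d (i + 1)))) ?_ (hE (i + 1))).1
      rw [LinearMap.ker_rangeRestrict]
      exact hd i
    | succ j ih =>
      intro i
      refine (ext_step_conv (act R (d i)).rangeRestrict (LinearMap.surjective_rangeRestrict _)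
        (LinearMap.range (act R (d (i + 1)))) ?_ (hE (i + 1))).2 j (ih (i + 1))
      rw [LinearMap.ker_rangeRestrict]
      exact hd i
  intro j hj
  obtain ⟨j, rfl⟩ : ∃ i, j = i + 1 := ⟨j - 1, by omega⟩
  cases j with
  | zero => exact (ext_step_conv π hπ _ h0 (hE 0)).1
  | succ j => exact (ext_step_conv π hπ _ h0 (hE 0)).2 j (key j 0)

end res

end Pool.Agent.Helper35.ARC2
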