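import Pool.Agent.Helper35.ARC2.Ascent

set_option autoImplicit false

/-!
# Extensions, liftings, Gorenstein rings
-/

open CategoryTheory Abelian IsLocalRing RingTheory.Sequence

namespace Pool.Agent.Helper35.ARC2

open Pool.Agent.Helper35.AR

section ext

variable {R S : Type} [CommRing R] [CommRing S] [Algebra R S]

theorem finite_of_surj (h : Function.Surjective (algebraMap R S)) : Module.Finite R S :=
  Module.Finite.of_surjective (Algebra.linearMap R S) h

variable [IsLocalRing R] [IsNoetherianRing R]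

theorem GrowExt.grow (h : GrowExt R S) {n : ℕ → ℕ}
    {D : ∀ i, Matrix (Fin (n (i + 1))) (Fin (n i)) R} (hD : ∀ i, D (i + 1) * D i = 0)
    (hR : ExactFrom1 R D) : ExactFrom1 S D := by
  obtain ⟨hsurj, hf, k, k₁, k₂, K, K₁, K₂, _, _, _, _, _, _, hk₁, hk₂, hs, hs₁, hs₂, hr, hfK⟩ := h
  have := finite_of_surj hsurj
  exact Pool.Agent.Helper35.ARC2.grow hD hk₁ hk₂ (chain_of_isSyz hD hR k S hs)
    (chain_of_isSyz hD hR k₁ S hs₁) (chain_of_isSyz hD hR k₂ S hs₂) hr hfK

theorem GrowExt.dual (h : GrowExt R S) (hS : DualExact S) : DualExact R := by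
  rw [dualExact_iff]
  intro n D hD hR
  have h1 := hS.torEx hD (h.grow hD hR)
  exact torEx_of_filt (fun i => by rw [← Matrix.transpose_mul, hD, Matrix.transpose_zero]) h1 h.2.1

theorem GrowExt.arc [Nontrivial S] (h : GrowExt R S) (hS : DualExact S) (hA : ARC S) : ARC R := by
  intro _ M _ _ _ hMR hMM
  obtain ⟨n, d, π, hmin, h0, hd⟩ := exists_res_module (R := R) M
  have hdd : ∀ i, d i * d (i + 1) = 0 := fun i => matrix_mul_eq_zero fun u => by
    have : act R (d (i + 1)) u ∈ LinearMap.ker (act R (d i)) := by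
      rw [← hd i]
      exact ⟨u, rfl⟩
    exact this
  have hD : ∀ i, (d (i + 1)).transpose * (d i).transpose = 0 := fun i => by
    rw [← Matrix.transpose_mul, hdd, Matrix.transpose_zero]
  have hXR : ExactFrom1 R (fun i => (d i).transpose) := exact_of_ext hmin.1 h0 hd hMR
  have hXM : ExactFrom1 M (fun i => (d i).transpose) := exact_of_ext hmin.1 h0 hd hMM
  have hXS := h.grow hD hXR
  have hT : TorEx S d := hS.torEx hD hXS
  have hTR : TorEx R d := torEx_of_filt hdd hT h.2.1
  have e1 : M ≃ₗ[R] Cok (d 0) R :=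
    ((Submodule.quotEquivOfEq _ _ h0).trans (π.quotKerEquivOfSurjective hmin.1)).symm
  have hXC : ExactFrom1 (Cok (d 0) R) (fun i => (d i).transpose) :=
    fun i => Ex.of_equiv e1 (hXM i)
  obtain ⟨hsurj, hf, k, k₁, k₂, K, K₁, K₂, _, _, _, _, _, _, hk₁, hk₂, hs, hs₁, hs₂, hr, hfK⟩ := h
  have := finite_of_surj hsurj
  have hXN : ExactFrom1 (Cok (d 0) S) (fun i => (d i).transpose) :=
    Pool.Agent.Helper35.ARC2.grow hD hk₁ hk₂ (chain_cok hD hdd hTR hXC k S hT hs)
      (chain_cok hD hdd hTR hXC k₁ S hT hs₁) (chain_cok hD hdd hTR hXC k₂ S hT hs₂)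
      (hr.cok (d 0)) (hfK.cok (hdd 0) (hT 0))
  have hker := transfer hsurj hA hmin h0 hdd hT hXS hXN
  exact Module.Free.of_equiv
    (LinearEquiv.ofBijective π ⟨LinearMap.ker_eq_bot.mp hker, hmin.1⟩)

end ext

section lift

variable {R : Type} [CommRing R] {x : R}

theorem ses_quot (hx : x ∈ nonZeroDivisors R) :
    SES (x • (LinearMap.id : R →ₗ[R] R)) (Algebra.linearMap R (R ⧸ Ideal.span {x})) where
  inj := by
    intro a b hab
    simp only [LinearMap.smul_apply, LinearMap.id_apply, smul_eq_mul] at hab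
    have h1 : (a - b) * x = 0 := by linear_combination hab
    exact sub_eq_zero.mp ((mem_nonZeroDivisors_iff_right.mp hx) _ h1)
  surj := Ideal.Quotient.mk_surjective
  exact := by
    intro a
    rw [Algebra.linearMap_apply, Ideal.Quotient.algebraMap_eq, Ideal.Quotient.eq_zero_iff_mem,
      Ideal.mem_span_singleton']
    constructor
    · rintro ⟨b, rfl⟩
      exact ⟨b, by simp [mul_comm]⟩
    · rintro ⟨b, rfl⟩
      exact ⟨b, by simp [mul_comm]⟩

theorem lift_exact (hx : x ∈ nonZeroDivisors R) {n : ℕ → ℕ}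
    {D : ∀ i, Matrix (Fin (n (i + 1))) (Fin (n i)) R} (hD : ∀ i, D (i + 1) * D i = 0)
    (hR : ExactFrom1 R D) : ExactFrom1 (R ⧸ Ideal.span {x}) D := fun i =>
  (ses_quot hx).ex_right (hD (i + 1)) (hR (i + 1)) (hR i)

variable [IsLocalRing R] [IsNoetherianRing R]

theorem lift_dual (hxm : x ∈ maximalIdeal R) (hx : x ∈ nonZeroDivisors R)
    (hS : DualExact (R ⧸ Ideal.span {x})) : DualExact R := by
  rw [dualExact_iff]
  intro n D hD hR i
  have h1 := hS.torEx hD (lift_exact hx hD hR) i
  have hs := ses_quot hx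
  have hdd : (D i).transpose * (D (i + 1)).transpose = 0 := by
    rw [← Matrix.transpose_mul, hD, Matrix.transpose_zero]
  set A := (D i).transpose with hA
  set B := (D (i + 1)).transpose with hB
  set Z := LinearMap.ker (act R A) with hZ
  have h2 : Z ≤ LinearMap.range (act R B) ⊔ maximalIdeal R • Z := by
    intro v hv
    obtain ⟨w'', hw''⟩ := h1 (fun b => Algebra.linearMap R (R ⧸ Ideal.span {x}) (v b)) (by
      rw [act_map, LinearMap.mem_ker.mp hv]
      funext a
      simp)
    obtain ⟨w, rfl⟩ := hs.lift w''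
    obtain ⟨u, hu⟩ := hs.pull (v - act R B w) (by
      funext b
      have h3 := congrFun hw'' b
      have h4 := congrFun (act_map (Algebra.linearMap R (R ⧸ Ideal.span {x})) B w) b
      simp only [Pi.sub_apply, map_sub, Pi.zero_apply]
      rw [← h4, ← h3, sub_self])
    have h5 : v = act R B w + x • u := by
      have h6 : x • u = v - act R B w := by
        rw [← hu]
        funext b
        simp
      rw [h6]
      abel
    rw [h5]
    refine Submodule.add_mem_sup ⟨w, rfl⟩ (Submodule.smul_mem_smul hxm ?_)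
    rw [hZ, LinearMap.mem_ker]
    apply hs.inj'
    rw [← act_map (x • (LinearMap.id : R →ₗ[R] R)) A u, hu, map_sub, LinearMap.mem_ker.mp hv,
      act_act_zero hdd]
    funext a
    simp
  intro v hv
  have h3 : Z ≤ LinearMap.range (act R B) := by
    have h4 : IsLocalRing.maximalIdeal R ≤ Ideal.jacobson ⊥ := by
      rw [IsLocalRing.jacobson_eq_maximalIdeal _ bot_ne_top]
    exact Submodule.le_of_le_smul_of_le_jacobson_bot (IsNoetherian.noetherian Z) h4 h2
  obtain ⟨w, hw⟩ := h3 (show v ∈ Z from hv)
  exact ⟨w, hw.symm⟩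

theorem lift_arc (hxm : x ∈ maximalIdeal R) (hx : x ∈ nonZeroDivisors R)
    (hA : ARC (R ⧸ Ideal.span {x})) : ARC R := by
  intro _ M _ _ _ hMR hMM
  obtain ⟨c, πM, hπM⟩ := exists_minCov (A := R) M
  have hKR : ∀ i : ℕ, 0 < i → Subsingleton (Ext (ModuleCat.of R (LinearMap.ker πM))
      (ModuleCat.of R R) i) := by
    intro i hi
    obtain ⟨j, rfl⟩ : ∃ j, i = j + 1 := ⟨i - 1, by omega⟩
    exact ext_ker πM hπM.1 j (hMR (j + 2) (by omega))
  have hKK : ∀ i : ℕ, 0 < i → Subsingleton (Ext (ModuleCat.of R (LinearMap.ker πM))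
      (ModuleCat.of R (LinearMap.ker πM)) i) :=
    fun i hi => ext_syz hMR hMM c πM hπM.1 i hi
  obtain ⟨n, d, π, hmin, h0, hd⟩ := exists_res_module (R := R) (LinearMap.ker πM)
  have hdd : ∀ i, d i * d (i + 1) = 0 := fun i => matrix_mul_eq_zero fun u => by
    have : act R (d (i + 1)) u ∈ LinearMap.ker (act R (d i)) := by
      rw [← hd i]
      exact ⟨u, rfl⟩
    exact this
  have hD : ∀ i, (d (i + 1)).transpose * (d i).transpose = 0 := fun i => by
    rw [← Matrix.transpose_mul, hdd, Matrix.transpose_zero]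
  have hXR : ExactFrom1 R (fun i => (d i).transpose) := exact_of_ext hmin.1 h0 hd hKR
  have hXK : ExactFrom1 (LinearMap.ker πM) (fun i => (d i).transpose) :=
    exact_of_ext hmin.1 h0 hd hKK
  have hTR : TorEx R d := by
    intro i v hv
    have h1 : v ∈ LinearMap.range (act R (d (i + 1))) := by
      rw [hd i]
      exact hv
    obtain ⟨w, hw⟩ := h1
    exact ⟨w, hw.symm⟩
  have hs := ses_quot hx
  let S := R ⧸ Ideal.span {x}
  have hXS : ExactFrom1 S (fun i => (d i).transpose) := lift_exact hx hD hXR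
  have hT : TorEx S d := by
    intro i
    cases i with
    | succ i => exact hs.ex_right (hdd i) (hTR i) (hTR (i + 1))
    | zero =>
      intro v'' hv''
      obtain ⟨v, rfl⟩ := hs.lift v''
      obtain ⟨u, hu⟩ := hs.pull (act R (d 0) v) (by
        rw [← act_map (Algebra.linearMap R (R ⧸ Ideal.span {x})) (d 0) v]
        exact hv'')
      have h1 : x • u = act R (d 0) v := by
        rw [← hu]
        funext b
        simp
      have h2 : π u = 0 := by
        have h3 : x • π u = 0 := by
          rw [← map_smul, h1]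
          have : act R (d 0) v ∈ LinearMap.ker π := by
            rw [← h0]
            exact ⟨v, rfl⟩
          exact this
        apply Subtype.ext
        funext b
        have h4 := congrFun (congrArg Subtype.val h3) b
        have h5 : ((π u : LinearMap.ker πM) : Fin c → R) b * x = 0 := by
          rw [mul_comm]
          exact h4
        exact (mem_nonZeroDivisors_iff_right.mp hx) _ h5
      have h3 : u ∈ LinearMap.range (act R (d 0)) := by
        rw [h0]
        exact h2
      obtain ⟨w, hw⟩ := h3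
      obtain ⟨t, ht⟩ := hTR 0 (v - x • w) (by
        rw [map_sub, map_smul, hw, h1, sub_self])
      refine ⟨fun b => Algebra.linearMap R (R ⧸ Ideal.span {x}) (t b), ?_⟩
      rw [act_map (Algebra.linearMap R (R ⧸ Ideal.span {x})) (d 1) t, ← ht]
      funext b
      have h6 : algebraMap R (R ⧸ Ideal.span {x}) x = 0 := by
        rw [Ideal.Quotient.algebraMap_eq, Ideal.Quotient.eq_zero_iff_mem]
        exact Ideal.mem_span_singleton_self x
      simp [h6]
  have e1 : LinearMap.ker πM ≃ₗ[R] Cok (d 0) R :=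
    ((Submodule.quotEquivOfEq _ _ h0).trans (π.quotKerEquivOfSurjective hmin.1)).symm
  have hXC : ExactFrom1 (Cok (d 0) R) (fun i => (d i).transpose) :=
    fun i => Ex.of_equiv e1 (hXK i)
  have hsC := hs.cok (hdd 0) (hT 0)
  have hXN : ExactFrom1 (Cok (d 0) S) (fun i => (d i).transpose) := fun i =>
    hsC.ex_right (hD (i + 1)) (hXC (i + 1)) (hXC i)
  have hnt : Nontrivial S := Ideal.Quotient.nontrivial_iff.2 (by
    refine ne_top_of_le_ne_top (maximalIdeal.isMaximal R).ne_top ?_
    rw [Ideal.span_le]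
    simpa using hxm)
  have hker := transfer (S := S) Ideal.Quotient.mk_surjective hA hmin h0 hdd hT hXS hXN
  have hsyz : IsSyz R (LinearMap.ker π) 2 M :=
    ⟨c, πM, hπM.1, n 0, π, hmin.1, ⟨LinearEquiv.refl _ _⟩⟩
  have hsub : Subsingleton (LinearMap.ker π) := by
    rw [hker]
    infer_instance
  have hNp : Module.Projective R (LinearMap.ker π) := by
    have : Module.Free R (LinearMap.ker π) := Module.Free.of_subsingleton R _
    infer_instance
  have hMp : Module.Projective R M := projective_of_isSyz hNp 2 M hsyz hMR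
  exact Module.free_of_flat_of_isLocalRing

end lift

section gorenstein

/-- rings of finite injective dimension over themselves reverse exact complexes -/
theorem dualExact_of_injectiveDimension (S : Type) [CommRing S] (e : ℕ)
    [h : HasInjectiveDimensionLT (ModuleCat.of S S) e] : DualExact S := by
  rw [dualExact_iff]
  intro n D hD hS
  have hrk : ∀ i, LinearMap.range (act S (D i)) = LinearMap.ker (act S (D (i + 1))) := by
    intro i
    apply le_antisymm
    · rintro _ ⟨u, rfl⟩
      rw [LinearMap.mem_ker, act_act_zero (hD i)]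
    · intro v hv
      obtain ⟨w, hw⟩ := hS i v hv
      exact ⟨w, hw.symm⟩
  have key : ∀ t : ℕ, ∀ j i : ℕ, e ≤ i + t → 0 < i → Subsingleton (Ext (ModuleCat.of S
      (LinearMap.range (act S (D j)))) (ModuleCat.of S S) i) := by
    intro t
    induction t with
    | zero =>
      intro j i hi hi0
      exact HasInjectiveDimensionLT.subsingleton (ModuleCat.of S S) e i (by simpa using hi) _
    | succ t ih =>
      intro j i hi hi0
      obtain ⟨l, rfl⟩ : ∃ l, i = l + 1 := ⟨i - 1, by omega⟩
      have h1 := ext_ker (X := S) (act S (D (j + 1))).rangeRestrict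
        (LinearMap.surjective_rangeRestrict _) l (ih (j + 1) (l + 2) (by omega) (by omega))
      rw [LinearMap.ker_rangeRestrict, ← hrk j] at h1
      exact h1
  intro i
  refine ex_of_extend (hrk i) ?_
  refine (ext_step (X := S) (act S (D (i + 2))).rangeRestrict
    (LinearMap.surjective_rangeRestrict _) _ ?_ fun j hj => key e (i + 2) j (by omega) hj).2
  rw [LinearMap.ker_rangeRestrict]
  exact hrk (i + 1)

end gorenstein

section cube

/-- the conjecture for rings whose maximal ideal has cube zero -/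
theorem arc_of_cube_zero (R : Type) [CommRing R] [IsNoetherianRing R] [IsLocalRing R]
    (h3 : maximalIdeal R ^ 3 = ⊥) : ARC R := by
  intro _ M _ _ _ hMR hMM
  obtain ⟨c, π, hπ⟩ := exists_minCov (A := R) M
  refine loewy_core R M hMR hMM 1 (LinearMap.ker π) ⟨c, π, hπ.1, ⟨LinearEquiv.refl _ _⟩⟩ []
    (by simp) (IsWeaklyRegular.nil R R) (IsWeaklyRegular.nil R _) ?_
  rw [Submodule.smul_le]
  rintro r hr y -
  have h1 : r • y = 0 := by
    ext b
    have h2 := (mem_smul_top_iff _ _).1 (hπ.2 y.2) b
    have h4 : r * (y : Fin c → R) b ∈ maximalIdeal R ^ 3 := by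
      rw [pow_succ]
      exact Ideal.mul_mem_mul hr h2
    rw [h3] at h4
    exact (Submodule.mem_bot R).mp h4
  rw [h1]
  exact Submodule.zero_mem _

end cube

end Pool.Agent.Helper35.ARC2
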